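import Pool.Agent.K4H55.BI.Eng
import Pool.Agent.Y18.LP.TupA

/-!
# Families of local characters over a number field, and the sums of the values of a Bianchi form

Port of `Y18/LP/{Psi,Gd}` to an imaginary quadratic field (`K4H55/BI/Eng` for characters of any order).
-/

set_option autoImplicit false
set_option linter.unusedSectionVars false

namespace Pool.Agent.L7h81.UB

open NumberField IsDedekindDomain
open Pool.Agent.K4H55.BI

section fam

variable {K : Type} [Field K] [NumberField K]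

/-- families of local characters -/
abbrev FamK (K : Type) [Field K] [NumberField K] : Type :=
  (v : HeightOneSpectrum (𝓞 K)) → (𝓞 K ⧸ v.asIdeal)ˣ →* ℂˣ

open Classical in
/-- the value of the local character -/
noncomputable def lv (c : FamK K) (v : HeightOneSpectrum (𝓞 K)) (x : 𝓞 K) : ℂ :=
  if h : IsUnit (Ideal.Quotient.mk v.asIdeal x) then (c v h.unit : ℂ) else 0

lemma unit_iff (v : HeightOneSpectrum (𝓞 K)) (x : 𝓞 K) :
    IsUnit (Ideal.Quotient.mk v.asIdeal x) ↔ x ∉ v.asIdeal := by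
  have hmax : v.asIdeal.IsMaximal := v.isMaximal
  let _ : Field (𝓞 K ⧸ v.asIdeal) := Ideal.Quotient.field _
  rw [isUnit_iff_ne_zero, Ne, Ideal.Quotient.eq_zero_iff_mem]

lemma lv_eq {c : FamK K} {v : HeightOneSpectrum (𝓞 K)} {x : 𝓞 K}
    (h : IsUnit (Ideal.Quotient.mk v.asIdeal x)) : lv c v x = (c v h.unit : ℂ) := by
  unfold lv
  rw [dif_pos h]

lemma lv_zero {c : FamK K} {v : HeightOneSpectrum (𝓞 K)} {x : 𝓞 K} (h : x ∈ v.asIdeal) :
    lv c v x = 0 := by
  unfold lv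
  rw [dif_neg fun h1 => (unit_iff v x).1 h1 h]

lemma lv_ne {c : FamK K} {v : HeightOneSpectrum (𝓞 K)} {x : 𝓞 K} (h : x ∉ v.asIdeal) :
    lv c v x ≠ 0 := by
  rw [lv_eq ((unit_iff v x).2 h)]
  exact Units.ne_zero _

lemma lv_one (c : FamK K) (v : HeightOneSpectrum (𝓞 K)) : lv c v 1 = 1 := by
  have h : IsUnit (Ideal.Quotient.mk v.asIdeal (1 : 𝓞 K)) := by rw [map_one]; exact isUnit_one
  rw [lv_eq h]
  have h1 : h.unit = 1 := Units.ext (by rw [IsUnit.unit_spec, map_one]; rfl)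
  rw [h1, map_one, Units.val_one]

lemma lv_mul (c : FamK K) (v : HeightOneSpectrum (𝓞 K)) (x y : 𝓞 K) :
    lv c v (x * y) = lv c v x * lv c v y := by
  by_cases hx : x ∈ v.asIdeal
  · rw [lv_zero hx, lv_zero (Ideal.mul_mem_right _ _ hx), zero_mul]
  · by_cases hy : y ∈ v.asIdeal
    · rw [lv_zero hy, lv_zero (Ideal.mul_mem_left _ _ hy), mul_zero]
    · have h1 := (unit_iff v x).2 hx
      have h2 := (unit_iff v y).2 hy
      have h3 : IsUnit (Ideal.Quotient.mk v.asIdeal (x * y)) := by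
        rw [map_mul]
        exact h1.mul h2
      rw [lv_eq h1, lv_eq h2, lv_eq h3]
      have h4 : h3.unit = h1.unit * h2.unit := Units.ext (by
        rw [IsUnit.unit_spec, Units.val_mul, IsUnit.unit_spec, IsUnit.unit_spec, map_mul])
      rw [h4, map_mul, Units.val_mul]

lemma lv_prd (c : FamK K) {v : HeightOneSpectrum (𝓞 K)} {x y : 𝓞 K} (h : x - y ∈ v.asIdeal) :
    lv c v x = lv c v y := by
  have e : Ideal.Quotient.mk v.asIdeal x = Ideal.Quotient.mk v.asIdeal y :=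
    Ideal.Quotient.eq.2 h
  by_cases hx : IsUnit (Ideal.Quotient.mk v.asIdeal x)
  · have hy : IsUnit (Ideal.Quotient.mk v.asIdeal y) := e ▸ hx
    rw [lv_eq hx, lv_eq hy]
    have h1 : hx.unit = hy.unit := Units.ext (by rw [IsUnit.unit_spec, IsUnit.unit_spec, e])
    rw [h1]
  · have hy : ¬ IsUnit (Ideal.Quotient.mk v.asIdeal y) := e ▸ hx
    unfold lv
    rw [dif_neg hx, dif_neg hy]

lemma lv_hom (c c' : FamK K) {v : HeightOneSpectrum (𝓞 K)} {x : 𝓞 K} (h : x ∉ v.asIdeal) :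
    lv (c * c') v x = lv c v x * lv c' v x := by
  have h1 := (unit_iff v x).2 h
  rw [lv_eq h1, lv_eq h1, lv_eq h1, Pi.mul_apply, MonoidHom.mul_apply, Units.val_mul]

lemma lv_triv {c : FamK K} {v : HeightOneSpectrum (𝓞 K)} (hc : c v = 1) {x : 𝓞 K} (h : x ∉ v.asIdeal) :
    lv c v x = 1 := by
  rw [lv_eq ((unit_iff v x).2 h), hc, MonoidHom.one_apply, Units.val_one]

lemma lv_pow {c : FamK K} {e : ℕ} (hc : c ^ e = 1) {v : HeightOneSpectrum (𝓞 K)} {x : 𝓞 K}
    (h : x ∉ v.asIdeal) : lv c v x ^ e = 1 := by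
  have h1 := (unit_iff v x).2 h
  have h2 : (c v) ^ e = 1 := by
    have := congrFun hc v
    simpa using this
  rw [lv_eq h1, ← Units.val_pow_eq_pow_val, ← MonoidHom.pow_apply, h2, MonoidHom.one_apply,
    Units.val_one]

/-- the product of the local values over `S` -/
noncomputable def vl (c : FamK K) (S : Finset (HeightOneSpectrum (𝓞 K))) (x : 𝓞 K) : ℂ :=
  ∏ v ∈ S, lv c v x

lemma vl_one (c : FamK K) (S : Finset (HeightOneSpectrum (𝓞 K))) : vl c S 1 = 1 := by
  unfold vl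
  exact Finset.prod_eq_one fun v _ => lv_one c v

lemma vl_mul (c : FamK K) (S : Finset (HeightOneSpectrum (𝓞 K))) (x y : 𝓞 K) :
    vl c S (x * y) = vl c S x * vl c S y := by
  unfold vl
  rw [← Finset.prod_mul_distrib]
  exact Finset.prod_congr rfl fun v _ => lv_mul c v x y

lemma vl_prd (c : FamK K) {S : Finset (HeightOneSpectrum (𝓞 K))} {x y : 𝓞 K}
    (h : ∀ v ∈ S, x - y ∈ v.asIdeal) : vl c S x = vl c S y := by
  unfold vl
  exact Finset.prod_congr rfl fun v hv => lv_prd c (h v hv)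

lemma vl_zero (c : FamK K) {S : Finset (HeightOneSpectrum (𝓞 K))} {x : 𝓞 K}
    {v : HeightOneSpectrum (𝓞 K)} (hv : v ∈ S) (h : x ∈ v.asIdeal) : vl c S x = 0 := by
  unfold vl
  exact Finset.prod_eq_zero hv (lv_zero h)

lemma vl_ne (c : FamK K) {S : Finset (HeightOneSpectrum (𝓞 K))} {x : 𝓞 K}
    (h : ∀ v ∈ S, x ∉ v.asIdeal) : vl c S x ≠ 0 := by
  unfold vl
  exact Finset.prod_ne_zero_iff.2 fun v hv => lv_ne (h v hv)

lemma vl_hom (c c' : FamK K) {S : Finset (HeightOneSpectrum (𝓞 K))} {x : 𝓞 K}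
    (h : ∀ v ∈ S, x ∉ v.asIdeal) : vl (c * c') S x = vl c S x * vl c' S x := by
  unfold vl
  rw [← Finset.prod_mul_distrib]
  exact Finset.prod_congr rfl fun v hv => lv_hom c c' (h v hv)

lemma vl_pow {c : FamK K} {e : ℕ} (hc : c ^ e = 1) {S : Finset (HeightOneSpectrum (𝓞 K))} {x : 𝓞 K}
    (h : ∀ v ∈ S, x ∉ v.asIdeal) : vl c S x ^ e = 1 := by
  unfold vl
  rw [← Finset.prod_pow]
  exact Finset.prod_eq_one fun v hv => lv_pow hc (h v hv)

lemma vl_sub {c : FamK K} {S T : Finset (HeightOneSpectrum (𝓞 K))} (hTS : T ⊆ S)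
    (h1 : ∀ v ∈ S, v ∉ T → c v = 1) {x : 𝓞 K} (h : ∀ v ∈ S, x ∉ v.asIdeal) :
    vl c S x = vl c T x := by
  unfold vl
  exact (Finset.prod_subset hTS fun v hv hvT => lv_triv (h1 v hv hvT) (h v hv)).symm

lemma vl_famone {S : Finset (HeightOneSpectrum (𝓞 K))} {x : 𝓞 K} (h : ∀ v ∈ S, x ∉ v.asIdeal) :
    vl (1 : FamK K) S x = 1 := by
  unfold vl
  exact Finset.prod_eq_one fun v hv => lv_triv rfl (h v hv)

open Classical in
/-- the support -/
noncomputable def sp (c : FamK K) : Finset (HeightOneSpectrum (𝓞 K)) :=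
  if h : {v | c v ≠ 1}.Finite then h.toFinset else ∅

lemma mem_sp {c : FamK K} (h : {v | c v ≠ 1}.Finite) (v : HeightOneSpectrum (𝓞 K)) :
    v ∈ sp c ↔ c v ≠ 1 := by
  unfold sp
  rw [dif_pos h, Set.Finite.mem_toFinset]
  rfl

lemma sp_one : sp (1 : FamK K) = ∅ := by
  have h : {v | (1 : FamK K) v ≠ 1}.Finite := by
    have : {v | (1 : FamK K) v ≠ 1} = ∅ := by
      ext v
      simp
    rw [this]
    exact Set.finite_empty
  ext v
  rw [mem_sp h]
  simp

lemma fin_inv {c : FamK K} (h : {v | c v ≠ 1}.Finite) : {v | (c⁻¹) v ≠ 1}.Finite := by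
  refine h.subset fun v hv h1 => hv ?_
  exact (inv_eq_one (α := (𝓞 K ⧸ v.asIdeal)ˣ →* ℂˣ) (a := c v)).2 h1

lemma sp_inv {c : FamK K} (h : {v | c v ≠ 1}.Finite) : sp c⁻¹ = sp c := by
  ext v
  rw [mem_sp h, mem_sp (fin_inv h)]
  exact not_congr (inv_eq_one (α := (𝓞 K ⧸ v.asIdeal)ˣ →* ℂˣ) (a := c v))

/-- conditions on a group of families -/
structure Ok (H : Subgroup (FamK K)) (e : ℕ) (A : Set (HeightOneSpectrum (𝓞 K))) : Prop where
  pow : ∀ c ∈ H, c ^ e = 1
  fin : ∀ c ∈ H, {v | c v ≠ 1}.Finite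
  adm : ∀ c ∈ H, ∀ v, c v ≠ 1 → v ∈ A

end fam

section step

variable {O : Type} [CommRing O]

open Classical in
/-- **The step**, for characters of any order. -/
theorem stepX [IsDomain O] (ι : O →+* ℂ) (hι : Function.Injective ι) {f : ℂ → ℂ}
    (hf : ∀ z y, f (z + ι y) = f z) {m q : O}
    (hm : m ≠ 0) (hq : q ≠ 0) (hco : IsCoprime q m) {X : O → ℂ} (hX : Prd m X)
    (hXm : ∀ x y, X (x * y) = X x * X y) (hXq : X q ≠ 0) {cq : ℂ} {S Q P : Finset O}
    (hS : CRS m S) (hQ : CRS q Q) (hP : CRS (m * q) P)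
    (hh : ∀ x, cq * f (ι x / ι m) = f (ι q * (ι x / ι m)) + ∑ b ∈ Q, f ((ι x / ι m + ι b) / ι q)) :
    (∑ x ∈ P, if q ∣ x then 0 else X x * f (ι x / ι (m * q))) =
      (cq - (X q)⁻¹ - X q) * ∑ x ∈ S, X x * f (ι x / ι m) := by
  have hιm : ι m ≠ 0 := fun h => hm (hι (by rw [h, map_zero]))
  have hιq : ι q ≠ 0 := fun h => hq (hι (by rw [h, map_zero]))
  have hfm : Prd m fun x => f (ι x / ι m) := by
    rintro x y ⟨k, hk⟩
    have hx : x = y + m * k := by linear_combination hk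
    have : ι x / ι m = ι y / ι m + ι k := by
      rw [hx, map_add, map_mul]
      field_simp
    simp only
    rw [this, hf]
  have hfmq : Prd (m * q) fun x => f (ι x / ι (m * q)) := by
    rintro x y ⟨k, hk⟩
    have hx : x = y + m * q * k := by linear_combination hk
    have : ι x / ι (m * q) = ι y / ι (m * q) + ι k := by
      rw [hx, map_add, map_mul, map_mul]
      field_simp
    simp only
    rw [this, hf]
  have hXmq : Prd (m * q) X := fun x y h => hX x y ((dvd_mul_right m q).trans h)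
  set g : O → ℂ := fun x => X x * f (ι x / ι (m * q)) with hg
  have hgp : Prd (m * q) g := fun x y h => by
    show X x * f (ι x / ι (m * q)) = X y * f (ι y / ι (m * q))
    have h1 := hfmq x y h
    simp only at h1
    rw [hXmq x y h, h1]
  have h1 : ∀ x, (if q ∣ x then (0 : ℂ) else X x * f (ι x / ι (m * q))) =
      g x - (if q ∣ x then g x else 0) := by
    intro x
    split_ifs <;> simp [hg]
  rw [Finset.sum_congr rfl fun x _ => h1 x, Finset.sum_sub_distrib]
  have h2 := CRS.sum_prod hm hS hQ hP hgp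
  have h3 := CRS.sum_mul hq hS hP hgp
  rw [h2, h3]
  have h4 : ∀ y ∈ S, ∑ b ∈ Q, g (y + m * b) =
      X y * (cq * f (ι y / ι m) - f (ι q * (ι y / ι m))) := by
    intro y _
    have h5 : ∀ b ∈ Q, g (y + m * b) = X y * f ((ι y / ι m + ι b) / ι q) := by
      intro b _
      have h6 : X (y + m * b) = X y := hX _ _ ⟨b, by ring⟩
      have h7 : ι (y + m * b) / ι (m * q) = (ι y / ι m + ι b) / ι q := by
        rw [map_add, map_mul, map_mul]
        field_simp
      simp only [hg]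
      rw [h6, h7]
    rw [Finset.sum_congr rfl h5, ← Finset.mul_sum, hh y]
    ring
  have h5 : ∀ x ∈ S, g (q * x) = X q * (X x * f (ι x / ι m)) := by
    intro x _
    have h7 : ι (q * x) / ι (m * q) = ι x / ι m := by
      rw [map_mul, map_mul]
      field_simp
    simp only [hg]
    rw [hXm, h7]
    ring
  have h6 : ∑ y ∈ S, X y * f (ι q * (ι y / ι m)) = (X q)⁻¹ * ∑ y ∈ S, X y * f (ι y / ι m) := by
    have hp : Prd m fun x => X x * f (ι x / ι m) := fun x y h => by
      have h8 := hfm x y h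
      simp only at h8 ⊢
      rw [hX x y h, h8]
    have h9 := CRS.sum_unit hco hS hp
    rw [← h9, Finset.mul_sum]
    refine Finset.sum_congr rfl fun y _ => ?_
    rw [hXm, map_mul]
    have : ι q * ι y / ι m = ι q * (ι y / ι m) := by ring
    rw [this]
    field_simp
  rw [Finset.sum_congr rfl h4, Finset.sum_congr rfl h5, ← Finset.mul_sum]
  have h7 : ∑ y ∈ S, X y * (cq * f (ι y / ι m) - f (ι q * (ι y / ι m))) =
      cq * ∑ y ∈ S, X y * f (ι y / ι m) - ∑ y ∈ S, X y * f (ι q * (ι y / ι m)) := by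
    rw [Finset.mul_sum, ← Finset.sum_sub_distrib]
    refine Finset.sum_congr rfl fun y _ => ?_
    ring
  rw [h7, h6]
  ring

end step

end Pool.Agent.L7h81.UB
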