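import Pool.Agent.K4H55.BI.Main
import Pool.Agent.L7h81.UB.Fam

/-!
# The sums of the values of a Bianchi form for families of local characters, and the corrections

Port of `Y18/LP/{Gd,Abs,Tup}` to an imaginary quadratic field of class number one.
-/

set_option autoImplicit false
set_option linter.unusedSectionVars false

namespace Pool.Agent.L7h81.UB

open NumberField IsDedekindDomain
open Pool.Agent.K4H55.BI (rs md gen gen_span gen_dvd gen_prime gen_na gen_inj fam_of fv fv_periodic MG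
  Prd CRS rs_CRS dvd_md md_insert prime_coprime md_coprime VV VV_fg)
open Pool.Agent.Y18.LP (Comb Good krull Mult Zr Zr_fg Zr_one Zr_Mult mul_Mult mul_Mult' prod_Mult prod_mem'
  fg_prod finite_Mult incl incl_coe comap_maximal one_sub_mem span_fg tup_abs)

variable {K : Type} [Field K] [NumberField K] [hP : IsPrincipalIdealRing (𝓞 K)]
  {D : Pool.Agent.K4H55.BI.Ord (𝓞 K)} {n : 𝓞 K} {c : 𝓞 K → ℂ} {C : ℝ} {w : ℂ} {M : Submodule ℤ ℂ}

open Classical in
/-- the sum for the modulus `S` -/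
noncomputable def stK (D : Pool.Agent.K4H55.BI.Ord (𝓞 K)) (f : ℂ → ℂ) (S : Finset (HeightOneSpectrum (𝓞 K))) (e : FamK K) :
    ℂ :=
  ∑ x ∈ rs D (md (S.image gen)), vl e S x * f (D.ι x / D.ι (md (S.image gen)))

/-- the value -/
noncomputable def btK (D : Pool.Agent.K4H55.BI.Ord (𝓞 K)) (f : ℂ → ℂ) (e : FamK K) : ℂ := stK D f (sp e) e

lemma gen_eq {v v' : HeightOneSpectrum (𝓞 K)} (h : gen v ∈ v'.asIdeal) : v' = v :=
  gen_na (gen_dvd.2 h)

/-- places prime to `2 n` -/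
def Gd2 (n : 𝓞 K) (S : Finset (HeightOneSpectrum (𝓞 K))) : Prop :=
  ∀ v ∈ S, (2 : 𝓞 K) ∉ v.asIdeal ∧ n ∉ v.asIdeal

open Classical in
lemma famg {S : Finset (HeightOneSpectrum (𝓞 K))} (hS : Gd2 n S) :
    Pool.Agent.K4H55.BI.Fam (S.image gen) :=
  fam_of (A := {v | (2 : 𝓞 K) ∉ v.asIdeal}) (fun _ hv => hv) (fun v hv => (hS v hv).1)

open Classical in
lemma ndg {S : Finset (HeightOneSpectrum (𝓞 K))} (hS : Gd2 n S) : ∀ p ∈ S.image gen, ¬ p ∣ n := by
  intro p hp hd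
  obtain ⟨v, hv, rfl⟩ := Finset.mem_image.1 hp
  exact (hS v hv).2 (gen_dvd.1 hd)

/-- the step -/
theorem stK_step (h : MG D n c C w M) {e : FamK K} {S : Finset (HeightOneSpectrum (𝓞 K))}
    {v : HeightOneSpectrum (𝓞 K)} [DecidableEq (HeightOneSpectrum (𝓞 K))] (hv : v ∉ S) (he : e v = 1)
    (hS : Gd2 n (insert v S)) :
    stK D (fv D c) (insert v S) e =
      (c (gen v) - (vl e S (gen v))⁻¹ - vl e S (gen v)) * stK D (fv D c) S e := by
  classical
  have hS' : Gd2 n S := fun v' hv' => hS v' (Finset.mem_insert_of_mem hv')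
  have hF := famg hS'
  have hm := hF.md_ne
  have hq := gen_prime v
  have hnot : gen v ∉ S.image gen := by
    intro h1
    obtain ⟨v', hv', h2⟩ := Finset.mem_image.1 h1
    exact hv (gen_inj h2 ▸ hv')
  have hmd : md ((insert v S).image gen) = md (S.image gen) * gen v := by
    rw [Finset.image_insert, md_insert hnot]
  have hco : IsCoprime (gen v) (md (S.image gen)) := by
    refine prime_coprime D hq fun hd => ?_
    obtain ⟨p, hp, hd'⟩ := (hq.dvd_finsetProd_iff _).1 hd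
    obtain ⟨v', hv', rfl⟩ := Finset.mem_image.1 hp
    exact hv (gen_na hd' ▸ hv')
  have hmn : IsCoprime (md (S.image gen)) n := md_coprime D hF (ndg hS')
  have hqn : ¬ gen v ∣ n := fun hd => (hS v (Finset.mem_insert_self v S)).2 (gen_dvd.1 hd)
  have hX : Prd (md (S.image gen)) (vl e S) := fun x y hxy =>
    vl_prd e fun v' hv' => gen_dvd.1 ((dvd_md (Finset.mem_image_of_mem _ hv')).trans hxy)
  have hXq : vl e S (gen v) ≠ 0 := by
    refine vl_ne e fun v' hv' h1 => ?_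
    have h2 : v' = v := gen_eq h1
    exact hv (h2 ▸ hv')
  have h2 := stepX D.ι D.inj (fv_periodic D c) hm hq.ne_zero hco hX (vl_mul e S) hXq
    (rs_CRS D hm) (rs_CRS D hq.ne_zero) (rs_CRS D (mul_ne_zero hm hq.ne_zero)) (cq := c (gen v))
    (fun x => h.hecke hq hqn (rs_CRS D hq.ne_zero) hm hmn)
  unfold stK
  rw [hmd, ← h2]
  refine Finset.sum_congr rfl fun x _ => ?_
  have h3 : vl e (insert v S) x = lv e v x * vl e S x := by
    unfold vl
    rw [Finset.prod_insert hv]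
  rw [h3]
  split_ifs with h4
  · rw [lv_zero (gen_dvd.1 h4), zero_mul, zero_mul]
  · rw [lv_triv he fun h5 => h4 (gen_dvd.2 h5), one_mul]

/-- the sum for a larger modulus -/
theorem stK_prod (h : MG D n c C w M) {e : FamK K} {N : ℕ} (he : e ^ N = 1)
    [DecidableEq (HeightOneSpectrum (𝓞 K))] {T : Finset (HeightOneSpectrum (𝓞 K))}
    (R : Finset (HeightOneSpectrum (𝓞 K))) : Disjoint R T → Gd2 n (R ∪ T) → (∀ v ∈ R, e v = 1) →
    ∃ x : HeightOneSpectrum (𝓞 K) → ℂ, (∀ v, x v ^ N = 1) ∧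
      stK D (fv D c) (R ∪ T) e = (∏ v ∈ R, (c (gen v) - (x v)⁻¹ - x v)) * stK D (fv D c) T e := by
  induction R using Finset.induction_on with
  | empty =>
    intro _ _ _
    exact ⟨fun _ => 1, fun _ => one_pow N, by simp⟩
  | insert q R hq ih =>
    intro hd hF he1
    have hqT : q ∉ T := fun h => Finset.disjoint_left.1 hd (Finset.mem_insert_self q R) h
    have hqRT : q ∉ R ∪ T := by simp [hq, hqT]
    rw [Finset.insert_union] at hF ⊢
    have hF' : Gd2 n (R ∪ T) := fun v hv => hF v (Finset.mem_insert_of_mem hv)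
    obtain ⟨x, hx, h2⟩ := ih (hd.mono_left (Finset.subset_insert q R)) hF'
      (fun v hv => he1 v (Finset.mem_insert_of_mem hv))
    have h1 := stK_step h hqRT (he1 q (Finset.mem_insert_self q R)) hF
    have hy : vl e (R ∪ T) (gen q) ^ N = 1 :=
      vl_pow he fun v hv h3 => hqRT (gen_eq h3 ▸ hv)
    refine ⟨Function.update x q (vl e (R ∪ T) (gen q)), fun v => ?_, ?_⟩
    · by_cases hvq : v = q
      · subst hvq
        rw [Function.update_self]
        exact hy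
      · rw [Function.update_of_ne hvq]
        exact hx v
    · rw [Finset.prod_insert hq, Function.update_self, h1, h2]
      have h3 : ∏ v ∈ R, (c (gen v) - (Function.update x q (vl e (R ∪ T) (gen q)) v)⁻¹ -
            Function.update x q (vl e (R ∪ T) (gen q)) v) =
          ∏ v ∈ R, (c (gen v) - (x v)⁻¹ - x v) := by
        refine Finset.prod_congr rfl fun v hv => ?_
        rw [Function.update_of_ne (show v ≠ q from fun h => hq (h ▸ hv))]
      rw [h3, mul_assoc]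

open Classical in
lemma cusp_mem {R : Subring ℂ} {S : Finset (HeightOneSpectrum (𝓞 K))} (hS : Gd2 n S) (x : 𝓞 K) :
    fv D c (D.ι x / D.ι (md (S.image gen))) ∈ Submodule.span R (VV D n c) :=
  Submodule.subset_span ⟨x, md (S.image gen), (famg hS).md_ne, md_coprime D (famg hS) (ndg hS), rfl⟩

lemma stK_mem {R : Subring ℂ} {N : ℕ} (hR : ∀ z : ℂ, z ^ N = 1 → z ∈ R) {e : FamK K} (he : e ^ N = 1)
    {S : Finset (HeightOneSpectrum (𝓞 K))} (hS : Gd2 n S) :
    stK D (fv D c) S e ∈ Submodule.span R (VV D n c) := by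
  classical
  unfold stK
  refine Submodule.sum_mem _ fun x _ => ?_
  by_cases hx : ∀ v ∈ S, x ∉ v.asIdeal
  · have h1 := (Submodule.span R (VV D n c)).smul_mem (⟨_, hR _ (vl_pow he hx)⟩ : R)
      (cusp_mem (R := R) (D := D) (c := c) hS x)
    exact h1
  · push Not at hx
    obtain ⟨v, hv, h1⟩ := hx
    rw [vl_zero e hv h1, zero_mul]
    exact Submodule.zero_mem _

/-- the sum for a fixed modulus is a combination of characters -/
lemma stK_comb {R : Subring ℂ} {N : ℕ} {H : Subgroup (FamK K)} (hH : ∀ e ∈ H, e ^ N = 1)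
    {S : Finset (HeightOneSpectrum (𝓞 K))} (hS : Gd2 n S) :
    (fun e : H => stK D (fv D c) S (e : FamK K)) ∈ Comb H N (Submodule.span R (VV D n c)) := by
  classical
  have h1 : (fun e : H => stK D (fv D c) S (e : FamK K)) =
      ∑ x ∈ rs D (md (S.image gen)), fun e : H =>
        vl (e : FamK K) S x * fv D c (D.ι x / D.ι (md (S.image gen))) := by
    funext e
    rw [Finset.sum_apply]
    rfl
  rw [h1]
  refine AddSubgroup.sum_mem _ fun x _ => ?_
  by_cases hx : ∀ v ∈ S, x ∉ v.asIdeal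
  · let E : H →* ℂ :=
      { toFun := fun e => vl (e : FamK K) S x
        map_one' := vl_famone hx
        map_mul' := fun e e' => by rw [Subgroup.coe_mul, vl_hom _ _ hx] }
    have h5 := Comb.gen (Γ := H) (e := N) (cusp_mem (R := R) (D := D) (c := c) hS x) E
      fun e => vl_pow (hH e e.2) hx
    have h6 : (fun e : H => vl (e : FamK K) S x * fv D c (D.ι x / D.ι (md (S.image gen)))) =
        fun e : H => fv D c (D.ι x / D.ι (md (S.image gen))) * E e := by
      funext e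
      exact mul_comm _ _
    rw [h6]
    exact h5
  · push Not at hx
    obtain ⟨v, hv, h2⟩ := hx
    have : (fun e : H => vl (e : FamK K) S x * fv D c (D.ι x / D.ι (md (S.image gen)))) = 0 := by
      funext e
      rw [vl_zero (e : FamK K) hv h2, zero_mul]
      rfl
    rw [this]
    exact AddSubgroup.zero_mem _

open Classical in
/-- the enlargement of the modulus does not change the character -/
lemma stK_ext {e : FamK K} (he : {v | e v ≠ 1}.Finite) {S : Finset (HeightOneSpectrum (𝓞 K))} :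
    ∀ v ∈ S \ sp e, e v = 1 := by
  intro v hv
  by_contra h
  exact (Finset.mem_sdiff.1 hv).2 ((mem_sp he v).2 h)

theorem goodK (h : MG D n c C w M) {R : Subring ℂ} {N : ℕ} (hR : ∀ z : ℂ, z ^ N = 1 → z ∈ R)
    (al : HeightOneSpectrum (𝓞 K) → R) {P : Ideal R} (hPp : P.IsPrime)
    (hP1 : ∀ z : R, (z : ℂ) ^ N = 1 → 1 - z ∈ P) {H : Subgroup (FamK K)}
    {A : Set (HeightOneSpectrum (𝓞 K))} (hH : Ok H N A)
    (hA : ∀ v ∈ A, (2 : 𝓞 K) ∉ v.asIdeal ∧ n ∉ v.asIdeal ∧ (al v : ℂ) = c (gen v) ∧ al v - 2 ∉ P) :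
    Good N P (Submodule.span R (VV D n c)) (fun e : H => btK D (fv D c) (e : FamK K)) := by
  classical
  have hsp : ∀ e : H, ∀ q ∈ sp (e : FamK K), q ∈ A := fun e q hq =>
    hH.adm e e.2 q ((mem_sp (hH.fin e e.2) q).1 hq)
  have hgd : ∀ S : Finset (HeightOneSpectrum (𝓞 K)), (∀ v ∈ S, v ∈ A) → Gd2 n S := fun S hS v hv =>
    ⟨(hA v (hS v hv)).1, (hA v (hS v hv)).2.1⟩
  refine ⟨fun e => stK_mem hR (hH.pow e e.2) (hgd _ (hsp e)), ?_⟩
  have hprod : ∀ S : Finset (HeightOneSpectrum (𝓞 K)), (∀ q ∈ S, q ∈ A) → ∏ q ∈ S, (al q - 2) ∉ P := by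
    intro S hS h
    obtain ⟨q, hq, h1⟩ := (hPp.prod_mem_iff).1 h
    exact (hA q (hS q hq)).2.2.2 h1
  refine ⟨fun e => ∏ q ∈ sp (e : FamK K), (al q - 2), fun e => hprod _ (hsp e), fun Q => ?_⟩
  set S : Finset (HeightOneSpectrum (𝓞 K)) := Q.biUnion (fun e => sp (e : FamK K)) with hS
  have hSA : ∀ q ∈ S, q ∈ A := by
    intro q hq
    obtain ⟨e, _, h1⟩ := Finset.mem_biUnion.1 hq
    exact hsp e q h1
  refine ⟨_, stK_comb (R := R) (D := D) (c := c) hH.pow (hgd S hSA), ∏ q ∈ S, (al q - 2),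
    hprod S hSA, ?_⟩
  intro e he
  have hsub : sp (e : FamK K) ⊆ S := Finset.subset_biUnion_of_mem (fun e : H => sp (e : FamK K)) he
  obtain ⟨x, hx, h1⟩ := stK_prod h (hH.pow e e.2) (T := sp (e : FamK K)) (S \ sp (e : FamK K))
    Finset.sdiff_disjoint (by rw [Finset.sdiff_union_of_subset hsub]; exact hgd S hSA)
    (stK_ext (hH.fin e e.2))
  rw [Finset.sdiff_union_of_subset hsub] at h1
  have hx2 : ∀ q, (x q)⁻¹ ^ N = 1 := fun q => by rw [inv_pow, hx q, _root_.inv_one]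
  refine ⟨∏ q ∈ S \ sp (e : FamK K), (al q - ⟨_, hR _ (hx2 q)⟩ - ⟨_, hR _ (hx q)⟩), ?_, ?_⟩
  · rw [← Ideal.Quotient.eq_zero_iff_mem, map_sub, map_mul, sub_eq_zero, map_prod, map_prod,
      map_prod]
    have h2 : ∏ q ∈ S \ sp (e : FamK K), Ideal.Quotient.mk P (al q - ⟨_, hR _ (hx2 q)⟩ -
          ⟨_, hR _ (hx q)⟩) = ∏ q ∈ S \ sp (e : FamK K), Ideal.Quotient.mk P (al q - 2) := by
      refine Finset.prod_congr rfl fun q _ => ?_
      rw [← sub_eq_zero, ← map_sub, Ideal.Quotient.eq_zero_iff_mem]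
      have h3 : al q - ⟨_, hR _ (hx2 q)⟩ - ⟨_, hR _ (hx q)⟩ - (al q - 2) =
          (1 - ⟨_, hR _ (hx2 q)⟩) + (1 - ⟨_, hR _ (hx q)⟩ : R) := by ring
      rw [h3]
      exact P.add_mem (hP1 _ (hx2 q)) (hP1 _ (hx q))
    rw [h2, Finset.prod_sdiff hsub]
  · show stK D (fv D c) S (e : FamK K) = _
    rw [h1, Subring.smul_def, smul_eq_mul]
    congr 1
    rw [← Subring.subtype_apply, map_prod]
    refine Finset.prod_congr rfl fun q hq => ?_
    rw [map_sub, map_sub]
    simp only [Subring.subtype_apply]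
    rw [(hA q (hSA q (Finset.sdiff_subset hq))).2.2.1]

/-- the value for the trivial character -/
lemma btK_one (D : Pool.Agent.K4H55.BI.Ord (𝓞 K)) (c : 𝓞 K → ℂ) : btK D (fv D c) (1 : FamK K) = fv D c 0 := by
  classical
  unfold btK stK
  rw [sp_one, Finset.image_empty]
  have h1 : CRS (1 : 𝓞 K) (rs D (md (∅ : Finset (𝓞 K)))) := by
    have : md (∅ : Finset (𝓞 K)) = 1 := by unfold md; simp
    rw [this]
    exact rs_CRS D one_ne_zero
  have h0 : CRS (1 : 𝓞 K) ({0} : Finset (𝓞 K)) :=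
    ⟨fun y => ⟨0, by simp, one_dvd _⟩, fun x hx x' hx' _ => by simp_all⟩
  have hm : md (∅ : Finset (𝓞 K)) = 1 := by unfold md; simp
  have hp : Prd (1 : 𝓞 K) (fun x => vl (1 : FamK K) ∅ x * fv D c (D.ι x / D.ι (md ∅))) := by
    intro x y _
    have e1 : ∀ x, vl (1 : FamK K) ∅ x = 1 := fun x => by unfold vl; simp
    have e2 : D.ι x / D.ι (md ∅) = D.ι y / D.ι (md ∅) + D.ι (x - y) := by
      rw [hm, map_one, map_sub]
      ring
    show vl (1 : FamK K) ∅ x * fv D c (D.ι x / D.ι (md ∅)) =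
      vl (1 : FamK K) ∅ y * fv D c (D.ι y / D.ι (md ∅))
    rw [e1, e1, e2, fv_periodic]
  rw [h1.sum_eq h0 hp, Finset.sum_singleton, map_zero, zero_div]
  have e1 : vl (1 : FamK K) ∅ 0 = 1 := by unfold vl; simp
  rw [e1, one_mul]

section main

variable {ι : Type} [Fintype ι] {nn : ι → 𝓞 K} {cc : ι → 𝓞 K → ℂ} {CC : ι → ℝ} {ww : ι → ℂ}
  {MM : ι → Submodule ℤ ℂ}

/-- the admissible places -/
def AdK (nn : ι → 𝓞 K) (cc : ι → 𝓞 K → ℂ) (lam : Ideal (integralClosure ℤ ℂ)) :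
    Set (HeightOneSpectrum (𝓞 K)) :=
  {v | (2 : 𝓞 K) ∉ v.asIdeal ∧ ∀ i, nn i ∉ v.asIdeal ∧ ∀ x ∈ lam, (x : ℂ) ≠ cc i (gen v) - 2}

lemma zero_cusp {D : Pool.Agent.K4H55.BI.Ord (𝓞 K)} {n : 𝓞 K} {c : 𝓞 K → ℂ} : fv D c 0 ∈ VV D n c :=
  ⟨0, 1, one_ne_zero, isCoprime_one_left, by rw [map_zero, zero_div]⟩

/-- the ring and the ideal -/
theorem setupK (hms : ∀ i, MG D (nn i) (cc i) (CC i) (ww i) (MM i)) (h0 : ∀ i, fv D (cc i) 0 ≠ 0)
    {l : ℕ} (hl : l.Prime) (k : ℕ) (lam : Ideal (integralClosure ℤ ℂ)) (hlam : lam.IsPrime)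
    (hmem : (l : integralClosure ℤ ℂ) ∈ lam) :
    ∃ (R : Subring ℂ) (_ : IsNoetherianRing R) (P : Ideal R) (al : ι → HeightOneSpectrum (𝓞 K) → R),
      P.IsMaximal ∧ (∀ z : ℂ, z ^ (l ^ k) = 1 → z ∈ R) ∧ (∀ z : R, (z : ℂ) ^ (l ^ k) = 1 → 1 - z ∈ P) ∧
      ∀ i, ∀ v ∈ AdK nn cc lam, (2 : 𝓞 K) ∉ v.asIdeal ∧ nn i ∉ v.asIdeal ∧
        (al i v : ℂ) = cc i (gen v) ∧ al i v - 2 ∉ P := by
  classical
  have he : 0 < l ^ k := pow_pos hl.pos k
  let W1 : Submodule ℤ ℂ := (∏ i, Submodule.span ℤ (VV D (nn i) (cc i))) * Zr (l ^ k)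
  have hfg : W1.FG := (fg_prod Finset.univ _ fun i _ => VV_fg (hms i)).mul (Zr_fg he)
  have hfin : Module.Finite ℤ W1 := Module.Finite.iff_fg.2 hfg
  have hw : (∏ i, fv D (cc i) 0) * 1 ∈ W1 := Submodule.mul_mem_mul
    (prod_mem' Finset.univ _ _ fun i _ => Submodule.subset_span zero_cusp) (Zr_one _)
  have hw0 : (∏ i, fv D (cc i) 0) * 1 ≠ 0 := by
    rw [mul_one]
    exact Finset.prod_ne_zero_iff.2 fun i _ => h0 i
  let R : Subring ℂ := Mult W1
  have hRfin : Module.Finite ℤ R := finite_Mult hw hw0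
  have hnoeth : IsNoetherianRing R := IsNoetherianRing.of_finite ℤ R
  have hRroot : ∀ z : ℂ, z ^ (l ^ k) = 1 → z ∈ R := fun z hz => mul_Mult' (Zr_Mult hz)
  have haR : ∀ i, ∀ v : HeightOneSpectrum (𝓞 K), nn i ∉ v.asIdeal → cc i (gen v) ∈ R := by
    intro i v hv
    have hq := gen_prime v
    have hqn : ¬ gen v ∣ nn i := fun hd => hv (gen_dvd.1 hd)
    refine mul_Mult (prod_Mult Finset.univ _ (Finset.mem_univ i) ?_)
    intro z hz
    induction hz using Submodule.span_induction with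
    | mem z hz =>
      obtain ⟨x, m, hm, hmn, rfl⟩ := hz
      rw [(hms i).hecke hq hqn (rs_CRS D hq.ne_zero) hm hmn]
      have hιq : D.ι (gen v) ≠ 0 := fun h => hq.ne_zero (D.inj (by rw [h, map_zero]))
      have hιm : D.ι m ≠ 0 := fun h => hm (D.inj (by rw [h, map_zero]))
      refine Submodule.add_mem _ (Submodule.subset_span ⟨gen v * x, m, hm, hmn, ?_⟩)
        (Submodule.sum_mem _ fun b _ => Submodule.subset_span ⟨x + m * b, m * gen v,
          mul_ne_zero hm hq.ne_zero, hmn.mul_left (prime_coprime D hq hqn), ?_⟩)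
      · rw [map_mul]
        congr 1
        ring
      · congr 1
        rw [map_add, map_mul, map_mul]
        field_simp
    | zero => rw [mul_zero]; exact Submodule.zero_mem _
    | add x y _ _ h1 h2 => rw [mul_add]; exact Submodule.add_mem _ h1 h2
    | smul c x _ h => rw [mul_smul_comm]; exact Submodule.smul_mem _ _ h
  let P : Ideal R := lam.comap (incl hRfin)
  refine ⟨R, hnoeth, P, fun i v => if h : cc i (gen v) ∈ R then ⟨cc i (gen v), h⟩ else 0,
    comap_maximal lam hRfin hlam hl hmem, hRroot, ?_, ?_⟩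
  · intro z hz
    rw [Ideal.mem_comap, map_sub, map_one]
    refine one_sub_mem lam hlam hl hmem (n := k) _ ?_
    apply Subtype.ext
    have h1 : ((incl hRfin z ^ (l ^ k) : integralClosure ℤ ℂ) : ℂ) =
        ((incl hRfin z : integralClosure ℤ ℂ) : ℂ) ^ (l ^ k) := rfl
    rw [h1, incl_coe, hz]
    rfl
  · rintro i v ⟨h2, hqA⟩
    obtain ⟨h1, h3⟩ := hqA i
    have h4 := haR i v h1
    refine ⟨h2, h1, ?_, ?_⟩
    · simp only [dif_pos h4]
    · simp only [dif_pos h4]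
      intro h5
      rw [Ideal.mem_comap] at h5
      refine h3 _ h5 ?_
      rw [incl_coe]
      rfl

/-- **a small set of corrections for tuples** -/
theorem tuplesK (hms : ∀ i, MG D (nn i) (cc i) (CC i) (ww i) (MM i)) (h0 : ∀ i, fv D (cc i) 0 ≠ 0)
    {l : ℕ} (hl : l.Prime) (k : ℕ) (lam : Ideal (integralClosure ℤ ℂ)) (hlam : lam.IsPrime)
    (hmem : (l : integralClosure ℤ ℂ) ∈ lam) (r : ℕ) :
    ∃ V : ℕ, ∀ H : Subgroup (FamK K), Ok H (l ^ k) (AdK nn cc lam) →
      ∃ KK : Finset (Fin r → FamK K), KK.card ≤ 2 ^ V ∧ (∀ x ∈ KK, ∀ j, x j ∈ H) ∧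
        ∀ e : Fin r → FamK K, (∀ j, e j ∈ H) → ∃ x ∈ KK, ∀ J : Fin r → ℕ, ∀ i,
          btK D (fv D (cc i)) (∏ j, (e j * x j) ^ J j) ≠ 0 := by
  classical
  have he : 0 < l ^ k := pow_pos hl.pos k
  obtain ⟨R, hR0, P, al, hPm, hR, hP1, hA⟩ := setupK hms h0 hl k lam hlam hmem
  have hx : ∏ x : ι × (Fin r → Fin (l ^ k)), fv D (cc x.1) 0 ∈
      ∏ x : ι × (Fin r → Fin (l ^ k)), Submodule.span R (VV D (nn x.1) (cc x.1)) :=
    prod_mem' Finset.univ (fun x : ι × (Fin r → Fin (l ^ k)) =>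
      Submodule.span R (VV D (nn x.1) (cc x.1))) _
      fun i _ => Submodule.subset_span zero_cusp
  obtain ⟨V, hV⟩ := krull hPm.ne_top (fg_prod Finset.univ
    (fun x : ι × (Fin r → Fin (l ^ k)) => Submodule.span R (VV D (nn x.1) (cc x.1)))
    fun i _ => span_fg (VV_fg (hms i.1))) hx (Finset.prod_ne_zero_iff.2 fun i _ => h0 i.1)
  refine ⟨V, fun H hH => ?_⟩
  have hV' : ∏ x : ι × (Fin r → Fin (l ^ k)), btK D (fv D (cc x.1)) 1 ∉ P ^ (V + 1) •
      ∏ x : ι × (Fin r → Fin (l ^ k)), Submodule.span R (VV D (nn x.1) (cc x.1)) := by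
    have : ∏ x : ι × (Fin r → Fin (l ^ k)), btK D (fv D (cc x.1)) 1 =
        ∏ x : ι × (Fin r → Fin (l ^ k)), fv D (cc x.1) 0 :=
      Finset.prod_congr rfl fun x _ => btK_one D (cc x.1)
    rw [this]
    exact hV
  have hg : ∀ i, Good (l ^ k) P (Submodule.span R (VV D (nn i) (cc i)))
      (fun e : H => btK D (fv D (cc i)) (e : FamK K)) := fun i =>
    goodK (hms i) hR (al i) hPm.isPrime hP1 hH (hA i)
  exact tup_abs (G := FamK K) hR he hPm hP1 r H (fun c hc => hH.pow c hc)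
    (fun i => Submodule.span R (VV D (nn i) (cc i))) (fun i e => btK D (fv D (cc i)) e) hg hV'

end main

end Pool.Agent.L7h81.UB
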