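import Pool.Agent.L7h15.OA.Ab
import Pool.Agent.L7h81.UB.Gk

/-!
# The characters of families, and the nonvanishing of the central values
-/

set_option autoImplicit false
set_option linter.unusedSectionVars false

namespace Pool.Agent.L7h81.UB

open NumberField IsDedekindDomain Filter Topology
open Pool.Agent.K4H55.BI (rs md gen gen_span gen_dvd gen_prime gen_inj fv MG IQ BF ordK kap kap_pos nu nu_ne)
open Pool.Agent.K4H55.CX (value_x efx)
open Pool.Agent.L7h15.OA (CHl Rcl)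
open scoped ComplexConjugate

variable {K : Type} [Field K] [NumberField K]

lemma vl_conj {e : FamK K} {N : ℕ} (hN : N ≠ 0) (he : e ^ N = 1)
    (S : Finset (HeightOneSpectrum (𝓞 K))) (x : 𝓞 K) : conj (vl e S x) = vl e⁻¹ S x := by
  by_cases hx : ∀ v ∈ S, x ∉ v.asIdeal
  · have h1 : vl e S x * vl e⁻¹ S x = 1 := by
      have h0 : e * e⁻¹ = 1 := mul_inv_cancel e
      rw [← vl_hom e e⁻¹ hx, h0, vl_famone hx]
    have h2 : ‖vl e S x‖ = 1 := Complex.norm_eq_one_of_pow_eq_one (vl_pow he hx) hN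
    have h3 : vl e S x * conj (vl e S x) = 1 := by
      rw [Complex.mul_conj, Complex.normSq_eq_norm_sq, h2]
      norm_num
    exact mul_left_cancel₀ (vl_ne e hx) (h3.trans h1.symm)
  · push Not at hx
    obtain ⟨v, hv, h1⟩ := hx
    rw [vl_zero _ hv h1, vl_zero _ hv h1, map_zero]

/-- elements with a given class modulo `v`, and `1` modulo the other places of `T` -/
lemma crt (T : Finset (HeightOneSpectrum (𝓞 K))) {v : HeightOneSpectrum (𝓞 K)} (hv : v ∈ T) (y : 𝓞 K) :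
    ∃ x, x - y ∈ v.asIdeal ∧ ∀ v' ∈ T, v' ≠ v → x - 1 ∈ v'.asIdeal := by
  classical
  obtain ⟨x, hx⟩ := IsDedekindDomain.exists_forall_sub_mem_ideal (s := T)
    (fun v : HeightOneSpectrum (𝓞 K) => v.asIdeal) (fun _ => 1)
    (fun v _ => Ideal.prime_of_isPrime v.ne_bot v.isPrime)
    (fun v _ v' _ hne h => hne (HeightOneSpectrum.ext h))
    (fun i => if (i : HeightOneSpectrum (𝓞 K)) = v then y else 1)
  refine ⟨x, ?_, fun v' hv' hne => ?_⟩
  · have h1 := hx v hv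
    rw [pow_one, if_pos rfl] at h1
    exact h1
  · have h1 := hx v' hv'
    rw [pow_one, if_neg hne] at h1
    exact h1

/-- the character of a family -/
lemma chl_of {l k : ℕ} {e : FamK K} (he : e ^ l ^ k = 1) (hfin : {v | e v ≠ 1}.Finite)
    (hu : ∀ u : 𝓞 K, IsUnit u → vl e (sp e) u = 1) : CHl l (sp e) (vl e (sp e)) := by
  have hne : ∀ x, vl e (sp e) x ≠ 0 → ∀ v ∈ sp e, x ∉ v.asIdeal := fun x hx v hv h1 =>
    hx (vl_zero e hv h1)
  refine ⟨vl_one e _, vl_mul e _, fun x => ⟨fun h => ?_, ?_⟩, fun x y h => vl_prd e h, hu, ?_,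
    ⟨k, fun x hx => vl_pow he (hne x hx)⟩⟩
  · by_contra h1
    push Not at h1
    exact vl_ne e h1 h
  · rintro ⟨v, hv, h⟩
    exact vl_zero e hv h
  · intro v hv
    have h1 : e v ≠ 1 := (mem_sp hfin v).1 hv
    obtain ⟨g, hg⟩ : ∃ g, e v g ≠ 1 := by
      by_contra h2
      push Not at h2
      exact h1 (MonoidHom.ext h2)
    obtain ⟨y, hy⟩ := Ideal.Quotient.mk_surjective (g : 𝓞 K ⧸ v.asIdeal)
    obtain ⟨x, hx1, hx2⟩ := crt (sp e) hv y
    have h3 : lv e v x = (e v g : ℂ) := by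
      rw [lv_prd e hx1]
      have hu : IsUnit (Ideal.Quotient.mk v.asIdeal y) := by
        rw [hy]
        exact g.isUnit
      rw [lv_eq hu]
      have : hu.unit = g := Units.ext (by rw [IsUnit.unit_spec, hy])
      rw [this]
    have h4 : vl e (sp e) x = (e v g : ℂ) := by
      classical
      rw [← h3]
      unfold vl
      rw [← Finset.mul_prod_erase _ _ hv]
      have h5 : ∏ v' ∈ (sp e).erase v, lv e v' x = 1 := by
        refine Finset.prod_eq_one fun v' hv' => ?_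
        rw [lv_prd e (hx2 v' (Finset.mem_of_mem_erase hv') (Finset.ne_of_mem_erase hv')), lv_one]
      rw [h5, mul_one]
    refine ⟨x, hx2, ?_, ?_⟩
    · rw [h4]
      exact Units.ne_zero _
    · rw [h4]
      exact fun h5 => hg (Units.ext h5)

variable [hP : IsPrincipalIdealRing (𝓞 K)] {σ : K →+* ℂ} {δ : K} {n : 𝓞 K} {c : Ideal (𝓞 K) → ℂ}

/-- the central value and the sum -/
theorem val_iff (h : IQ K σ δ) (hf : BF σ δ n c) {l : ℕ} (hl : l.Prime) {k : ℕ} {e : FamK K}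
    (he : e ^ l ^ k = 1) (hfin : {v | e v ≠ 1}.Finite) (hu : ∀ u : 𝓞 K, IsUnit u → vl e (sp e) u = 1)
    (hT : Gd2 n (sp e)) :
    ∃ G : ℂ → ℂ, Differentiable ℂ G ∧
      (∀ s : ℂ, 2 < s.re → HasProd (efx n c (vl e (sp e)) s) (G s)) ∧
      (G 1 ≠ 0 ↔ btK (ordK h) (fv (ordK h) (fun x => c (Ideal.span {x}))) e⁻¹ ≠ 0) := by
  classical
  have hχ := chl_of he hfin hu
  have hcc := hχ.hc hl
  have hfam := famg hT
  obtain ⟨G, h1, h2, h3⟩ := value_x h hf hfam hcc hu fun v hv => (hT v hv).2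
  refine ⟨G, h1, h2, ?_⟩
  have hsum : ∑ x ∈ rs (ordK h) (md ((sp e).image gen)), conj (vl e (sp e) x) *
      fv (ordK h) (fun x => c (Ideal.span {x})) ((ordK h).ι x / (ordK h).ι (md ((sp e).image gen))) =
      btK (ordK h) (fv (ordK h) (fun x => c (Ideal.span {x}))) e⁻¹ := by
    unfold btK stK
    rw [sp_inv hfin]
    refine Finset.sum_congr rfl fun x _ => ?_
    rw [vl_conj (pow_pos hl.pos k).ne' he]
  rw [h3, hsum]
  have hk0 : (kap (ordK h) : ℂ) ≠ 0 := by exact_mod_cast (kap_pos (ordK h)).ne'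
  constructor
  · intro h4 h5
    rw [h5, mul_zero, zero_div] at h4
    exact h4 rfl
  · intro h4
    exact div_ne_zero (mul_ne_zero (div_ne_zero hk0
      (Pool.Agent.K4H55.CX.gx_ne (ordK h) hfam hcc.br)) h4) (nu_ne (ordK h))

/-- **Nonvanishing** from the nonvanishing of the sum. -/
theorem nonv (h : IQ K σ δ) (hf : BF σ δ n c) {l : ℕ} (hl : l.Prime) {k : ℕ} {e : FamK K}
    (he : e ^ l ^ k = 1) (hfin : {v | e v ≠ 1}.Finite) (hu : ∀ u : 𝓞 K, IsUnit u → vl e (sp e) u = 1)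
    (hT : Gd2 n (sp e))
    (hb : btK (ordK h) (fv (ordK h) (fun x => c (Ideal.span {x}))) e⁻¹ ≠ 0) :
    ∃ G : ℂ → ℂ, Differentiable ℂ G ∧
      (∀ s : ℂ, 2 < s.re → HasProd (efx n c (vl e (sp e)) s) (G s)) ∧ G 1 ≠ 0 := by
  obtain ⟨G, h1, h2, h3⟩ := val_iff h hf hl he hfin hu hT
  exact ⟨G, h1, h2, h3.2 hb⟩

end Pool.Agent.L7h81.UB
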