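import Pool.Agent.L7h15.OA.End
import Pool.Agent.L7h81.UB.Nn

/-!
The `L`-series over a class field, from given nonvanishing `L`-functions of the characters (a variant of
`L7h15.OA.end_l`).
-/

set_option autoImplicit false
set_option linter.unusedSectionVars false

namespace Pool.Agent.L7h81.UB

open IsDedekindDomain NumberField IsLocalRing Pool.Agent.W189.NF Filter Topology
open Pool.Agent.H921R2.TatePole (nm two_le_nm)
open Pool.Agent.K4H55.CX (facF efx Law plc mem_plc mem_plc_K emb_int cpow_two)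
open Pool.Agent.K4H55.BI (IQ BF Fser gen gen_span gen_dvd)
open Pool.Agent.K4H55.BK (Vals)
open Pool.Agent.K4H55.BD (low mem_low)
open Pool.Agent.L7h15.BK (cv npt pol pol_diff pol_ne tpol efx_eq tpol_diff tpol_ne nm_two fin_bad lser_an split_norm
  LSeries_hasProdB HB hb_place loc_good norm_gt fac_eq)
open Pool.Agent.L7h15.OA (Rcl CHl CFl cls above_prod chl_norm ch_dvd)

section main

variable {K : Type} [Field K] [NumberField K] [hP : IsPrincipalIdealRing (𝓞 K)] {σ : K →+* ℂ}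
  {δ : K} {n : 𝓞 K} {c : Ideal (𝓞 K) → ℂ} {F : Type} [Field F] [NumberField F] [Algebra K F]

open Classical in
/-- the level and the coefficients at the good places -/
theorem loc_lev {a b : 𝓞 K}
    (hloc : ∀ v : HeightOneSpectrum (𝓞 K), c v.asIdeal = (aV (cv (a : K) (b : K)) v : ℂ) ∧
      (eV (cv (a : K) (b : K)) v : ℂ) = if n ∈ v.asIdeal then 0 else (Ideal.absNorm v.asIdeal : ℂ))
    (v : HeightOneSpectrum (𝓞 K)) (hv : 2 * (4 * a ^ 3 + 27 * b ^ 2) ∉ v.asIdeal) :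
    n ∉ v.asIdeal ∧ c v.asIdeal = (Ideal.absNorm v.asIdeal : ℂ) -
      npt (Ideal.Quotient.mk v.asIdeal a) (Ideal.Quotient.mk v.asIdeal b) := by
  obtain ⟨h1, h2⟩ := loc_good (a := a) (b := b) hv
  obtain ⟨h3, h4⟩ := hloc v
  have hnm : nm v = Ideal.absNorm v.asIdeal := rfl
  constructor
  · intro hn
    rw [if_pos hn, h2] at h4
    have h5 : nm v = 0 := by exact_mod_cast h4
    have := two_le_nm v
    omega
  · rw [h3, h1, hnm]
    push_cast
    ring

open Classical in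
/-- the coefficient at an admissible place of the conductor of a character is not `2` modulo `l` -/
theorem coef_ne {a b : 𝓞 K} {l : ℕ}
    (hloc : ∀ v : HeightOneSpectrum (𝓞 K), c v.asIdeal = (aV (cv (a : K) (b : K)) v : ℂ) ∧
      (eV (cv (a : K) (b : K)) v : ℂ) = if n ∈ v.asIdeal then 0 else (Ideal.absNorm v.asIdeal : ℂ))
    {v : HeightOneSpectrum (𝓞 K)} (hv : 2 * (4 * a ^ 3 + 27 * b ^ 2) ∉ v.asIdeal)
    (h2 : ¬ l ∣ npt (Ideal.Quotient.mk v.asIdeal a) (Ideal.Quotient.mk v.asIdeal b) + 1)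
    (h6 : (l : ℤ) ∣ (Ideal.absNorm v.asIdeal : ℤ) - 1) :
    ∃ m : ℤ, c v.asIdeal = m ∧ ¬ (l : ℤ) ∣ m - 2 := by
  obtain ⟨h4, h5⟩ := loc_lev hloc v hv
  refine ⟨(Ideal.absNorm v.asIdeal : ℤ) -
    npt (Ideal.Quotient.mk v.asIdeal a) (Ideal.Quotient.mk v.asIdeal b), ?_, ?_⟩
  · rw [h5]
    push_cast
    ring
  · intro h7
    apply h2
    have h8 : (l : ℤ) ∣ ((npt (Ideal.Quotient.mk v.asIdeal a) (Ideal.Quotient.mk v.asIdeal b) + 1 : ℕ) :
        ℤ) := by
      have h9 := dvd_sub h6 h7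
      have e : ((Ideal.absNorm v.asIdeal : ℤ) - 1) - ((Ideal.absNorm v.asIdeal : ℤ) -
          npt (Ideal.Quotient.mk v.asIdeal a) (Ideal.Quotient.mk v.asIdeal b) - 2) =
          ((npt (Ideal.Quotient.mk v.asIdeal a) (Ideal.Quotient.mk v.asIdeal b) + 1 : ℕ) : ℤ) := by
        push_cast
        ring
      rwa [e] at h9
    exact_mod_cast h8

open Classical in
/-- **the `L`-series over a class field** -/
theorem end_u (h : IQ K σ δ) (hf : BF σ δ n c) {l : ℕ} (hl : l.Prime) {a b : 𝓞 K} (hΔ : 4 * a ^ 3 + 27 * b ^ 2 ≠ 0)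
    (hloc : ∀ v : HeightOneSpectrum (𝓞 K), c v.asIdeal = (aV (cv (a : K) (b : K)) v : ℂ) ∧
      (eV (cv (a : K) (b : K)) v : ℂ) = if n ∈ v.asIdeal then 0 else (Ideal.absNorm v.asIdeal : ℂ))
    [IsGalois K F] (hab : ∀ s t : F ≃ₐ[K] F, s * t = t * s)
    (hψ : ∀ v : HeightOneSpectrum (𝓞 K), 2 * (4 * a ^ 3 + 27 * b ^ 2) ∈ v.asIdeal →
      Nonempty (F →ₐ[K] v.adicCompletion K))
    {T : ((F ≃ₐ[K] F) →* ℂˣ) → Finset (HeightOneSpectrum (𝓞 K))}
    {χ : ((F ≃ₐ[K] F) →* ℂˣ) → 𝓞 K → ℂ} (hR : ∀ ψ, Rcl l ψ (T ψ) (χ ψ))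
    {Gp : ((F ≃ₐ[K] F) →* ℂˣ) → ℂ → ℂ} (gp1 : ∀ ψ, Differentiable ℂ (Gp ψ))
    (gp2 : ∀ ψ, ∀ s : ℂ, 2 < s.re → HasProd (efx n c (χ ψ) s) (Gp ψ s)) (gp3 : ∀ ψ, Gp ψ 1 ≠ 0) :
    ∃ (U : Set ℂ) (Φ : ℂ → ℂ),
      IsOpen U ∧ IsConnected U ∧ {s : ℂ | (3 / 2 : ℝ) < s.re} ⊆ U ∧ (1 : ℂ) ∈ U ∧
      AnalyticOnNhd ℂ Φ U ∧ (∀ s : ℂ, (3 / 2 : ℝ) < s.re →
        Φ s = (cv (algebraMap K F a) (algebraMap K F b)).LSeries s) ∧ Φ 1 ≠ 0 := by
  obtain ⟨hcf, hlw⟩ := cls hab hR
  set d : 𝓞 K := 2 * (4 * a ^ 3 + 27 * b ^ 2) with hd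
  have hd0 : d ≠ 0 := mul_ne_zero two_ne_zero hΔ
  set E : WeierstrassCurve F := cv (algebraMap K F a) (algebraMap K F b) with hEd
  have hfinG : Finite ((F ≃ₐ[K] F) →* ℂˣ) := by
    refine Nat.finite_of_card_ne_zero ?_
    let _ : CommGroup (F ≃ₐ[K] F) := { (inferInstance : Group (F ≃ₐ[K] F)) with mul_comm := hab }
    have e := CommGroup.card_monoidHom_of_hasEnoughRootsOfUnity (F ≃ₐ[K] F) ℂ
    have e2 : 0 < Nat.card (F ≃ₐ[K] F) := Nat.card_pos
    intro h0
    have e3 : Nat.card ((F ≃ₐ[K] F) →* ℂˣ) = Nat.card (F ≃ₐ[K] F) := e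
    omega
  have : Fintype ((F ≃ₐ[K] F) →* ℂˣ) := Fintype.ofFinite _
  -- the good places
  have hgood : ∀ v : HeightOneSpectrum (𝓞 K), d ∉ v.asIdeal → n ∉ v.asIdeal ∧
      c v.asIdeal = (Ideal.absNorm v.asIdeal : ℂ) -
        npt (Ideal.Quotient.mk v.asIdeal a) (Ideal.Quotient.mk v.asIdeal b) := loc_lev hloc
  -- the bounds
  have hnv4 : ∀ v : HeightOneSpectrum (𝓞 K), (2 : 𝓞 K) ∈ v.asIdeal → Ideal.absNorm v.asIdeal ≤ 4 :=
    fun v hv => nm_two h.deg hv
  have hHK : ∀ v : HeightOneSpectrum (𝓞 K), HB (aV (cv (a : K) (b : K)) v)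
      (eV (cv (a : K) (b : K)) v) (nm v) := by
    intro v
    refine hb_place _ v ?_
    by_cases h2 : (2 : 𝓞 K) ∈ v.asIdeal
    · exact Or.inr (hnv4 v h2)
    · exact Or.inl h2
  have hHF : ∀ u : HeightOneSpectrum (𝓞 F), HB (aV E u) (eV E u) (nm u) := by
    intro u
    refine hb_place _ u ?_
    by_cases h2 : (2 : 𝓞 F) ∈ u.asIdeal
    · right
      have h3 : (2 : 𝓞 K) ∈ (low (K := K) u).asIdeal := by
        rw [mem_low, map_ofNat]
        exact h2
      obtain ⟨ψ⟩ := hψ (low u) (Ideal.mul_mem_right _ _ h3)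
      have h4 : nm u = Ideal.absNorm u.asIdeal := rfl
      rw [h4, split_norm ψ (u := u) rfl]
      exact hnv4 _ h3
    · exact Or.inl h2
  obtain ⟨G, g1, g2, hG1⟩ : ∃ G : ℂ → ℂ, Differentiable ℂ G ∧
      (∀ s : ℂ, 2 < s.re → HasProd (fun v : HeightOneSpectrum (𝓞 K) =>
        ∏ᶠ u : {u : HeightOneSpectrum (𝓞 F) //
          u.asIdeal.comap (algebraMap (𝓞 K) (𝓞 F)) = v.asIdeal},
            facF n c v (Ideal.absNorm u.1.asIdeal) s) (G s)) ∧ G 1 ≠ 0 := by
    refine ⟨fun s => ∏ ψ, Gp ψ s, Differentiable.fun_finsetProd fun ψ _ => gp1 ψ, fun s hs => ?_, ?_⟩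
    · simp only [above_prod (n := n) (c := c) hcf hlw]
      exact hasProd_prod fun ψ _ => gp2 ψ s hs
    · exact Finset.prod_ne_zero_iff.2 fun ψ _ => gp3 ψ
  -- the factors
  set Ab : HeightOneSpectrum (𝓞 K) → Type := fun v => {u : HeightOneSpectrum (𝓞 F) //
    u.asIdeal.comap (algebraMap (𝓞 K) (𝓞 F)) = v.asIdeal} with hAb
  have hAfin : ∀ v, Finite (Ab v) := by
    intro v
    have h1 := hlw.card v
    refine Nat.finite_of_card_ne_zero fun h0 => ?_
    have h2 : Nat.card {u : HeightOneSpectrum (𝓞 F) //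
      u.asIdeal.comap (algebraMap (𝓞 K) (𝓞 F)) = v.asIdeal} = 0 := h0
    rw [h2, zero_mul] at h1
    have h3 : Nonempty {g // χ g (gen v) ≠ 0} := ⟨⟨1, by rw [hcf.triv]; exact one_ne_zero⟩⟩
    have h4 : 0 < Nat.card {g // χ g (gen v) ≠ 0} := Nat.card_pos
    omega
  have hAft : ∀ v, Fintype (Ab v) := fun v => Fintype.ofFinite _
  set B : Finset (HeightOneSpectrum (𝓞 K)) := (fin_bad hd0).toFinset with hB
  have hBm : ∀ v, v ∈ B ↔ d ∈ v.asIdeal := fun v => by
    rw [hB, Set.Finite.mem_toFinset]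
    rfl
  set P : ℂ → ℂ := fun s => ∏ v ∈ B, ∏ u : Ab v, pol E u.1 s with hPd
  set Q : ℂ → ℂ := fun s => ∏ v ∈ B, ∏ ψ, tpol n c (χ ψ (gen v)) v s with hQd
  have hPdiff : Differentiable ℂ P := by
    refine Differentiable.fun_finsetProd fun v _ => Differentiable.fun_finsetProd fun u _ => ?_
    exact pol_diff E u.1
  have hQdiff : Differentiable ℂ Q := by
    refine Differentiable.fun_finsetProd fun v _ => Differentiable.fun_finsetProd fun ψ _ => ?_
    exact tpol_diff _ v (hloc v).1 (hloc v).2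
  have hPne : ∀ s : ℂ, 1 / 2 < s.re → P s ≠ 0 := fun s hs =>
    Finset.prod_ne_zero_iff.2 fun v _ => Finset.prod_ne_zero_iff.2 fun u _ => pol_ne E (hHF u.1) hs
  have hQne : ∀ s : ℂ, 1 / 2 < s.re → Q s ≠ 0 := fun s hs =>
    Finset.prod_ne_zero_iff.2 fun v _ => Finset.prod_ne_zero_iff.2 fun ψ _ =>
      tpol_ne (chl_norm hl (hR ψ).ch _) hs (hloc v).1 (hloc v).2 (hHK v)
  -- the comparison for `Re s > 2`
  have hcomp : ∀ s : ℂ, 2 < s.re → E.LSeries s * P s = G s * Q s := by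
    intro s hs
    have h1 := (LSeries_hasProdB E hHF (s := s) (by linarith)).2
    have h2 : HasProd (fun v : HeightOneSpectrum (𝓞 K) => ∏ u : Ab v, (pol E u.1 s)⁻¹)
        (E.LSeries s) := by
      let e : (Σ v : HeightOneSpectrum (𝓞 K), Ab v) ≃ HeightOneSpectrum (𝓞 F) :=
        { toFun := fun x => x.2.1
          invFun := fun u => ⟨low u, ⟨u, rfl⟩⟩
          left_inv := by
            rintro ⟨v, u, hu⟩
            have hv : low (K := K) u = v := HeightOneSpectrum.ext hu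
            subst hv
            rfl
          right_inv := fun u => rfl }
      have h3 := e.hasProd_iff.2 h1
      refine h3.sigma fun v => ?_
      exact hasProd_fintype _ (.unconditional _)
    have h3 := g2 s hs
    have h4 : HasProd (fun v : HeightOneSpectrum (𝓞 K) =>
        if v ∈ B then ∏ u : Ab v, pol E u.1 s else 1) (P s) := by
      have h6 := hasProd_prod_of_ne_finset_one (L := .unconditional _) (s := B)
        (f := fun v : HeightOneSpectrum (𝓞 K) =>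
          if v ∈ B then ∏ u : Ab v, pol E u.1 s else 1) (fun v hv => if_neg hv)
      rw [Finset.prod_congr rfl (fun v hv => if_pos hv)] at h6
      exact h6
    have h5 : HasProd (fun v : HeightOneSpectrum (𝓞 K) =>
        if v ∈ B then ∏ ψ, tpol n c (χ ψ (gen v)) v s else 1) (Q s) := by
      have h6 := hasProd_prod_of_ne_finset_one (L := .unconditional _) (s := B)
        (f := fun v : HeightOneSpectrum (𝓞 K) =>
          if v ∈ B then ∏ ψ, tpol n c (χ ψ (gen v)) v s else 1) (fun v hv => if_neg hv)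
      rw [Finset.prod_congr rfl (fun v hv => if_pos hv)] at h6
      exact h6
    refine (h2.mul h4).unique ((h3.mul h5).congr_fun fun v => ?_)
    have hab' := above_prod (n := n) (c := c) hcf hlw v s
    have hs2 : (1 / 2 : ℝ) < s.re := by linarith
    by_cases hv : v ∈ B
    · rw [if_pos hv, if_pos hv, Finset.prod_inv_distrib, hab', Finset.prod_congr rfl fun ψ _ =>
        efx_eq (n := n) (c := c) (χ ψ) v s, Finset.prod_inv_distrib,
        inv_mul_cancel₀ (Finset.prod_ne_zero_iff.2 fun u _ => pol_ne E (hHF u.1) hs2),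
        inv_mul_cancel₀ (Finset.prod_ne_zero_iff.2 fun ψ _ =>
          tpol_ne (chl_norm hl (hR ψ).ch _) hs2 (hloc v).1 (hloc v).2 (hHK v))]
    · rw [if_neg hv, if_neg hv, mul_one, mul_one]
      have hdv : d ∉ v.asIdeal := fun h0 => hv ((hBm v).2 h0)
      obtain ⟨k1, k2⟩ := hgood v hdv
      have e1 : ∏ᶠ u : Ab v, facF n c v (Ideal.absNorm u.1.asIdeal) s =
          ∏ u : Ab v, facF n c v (Ideal.absNorm u.1.asIdeal) s := finprod_eq_prod_of_fintype _
      refine Eq.trans ?_ e1.symm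
      refine Finset.prod_congr rfl fun u _ => ?_
      exact fac_eq u.2 hdv k1 k2 (hlw.norm v u.1 u.2) s
  -- the comparison for `Re s > 3 / 2`
  have hcomp' : ∀ s : ℂ, (3 / 2 : ℝ) < s.re → E.LSeries s * P s = G s * Q s := by
    have hU : IsPreconnected {s : ℂ | (3 / 2 : ℝ) < s.re} :=
      (convex_halfSpace_re_gt (3 / 2)).isPreconnected
    have h1 : AnalyticOnNhd ℂ (fun s => E.LSeries s * P s) {s : ℂ | (3 / 2 : ℝ) < s.re} :=
      fun s hs => (lser_an E hHF s hs).mul (hPdiff.analyticAt s)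
    have h2 : AnalyticOnNhd ℂ (fun s => G s * Q s) {s : ℂ | (3 / 2 : ℝ) < s.re} :=
      fun s _ => (g1.analyticAt s).mul (hQdiff.analyticAt s)
    have h3 : (3 : ℂ) ∈ {s : ℂ | (3 / 2 : ℝ) < s.re} := by
      show (3 / 2 : ℝ) < (3 : ℂ).re
      norm_num
    have h4 : (fun s => E.LSeries s * P s) =ᶠ[𝓝 (3 : ℂ)] fun s => G s * Q s := by
      have h5 : {s : ℂ | (2 : ℝ) < s.re} ∈ 𝓝 (3 : ℂ) :=
        (isOpen_lt continuous_const Complex.continuous_re).mem_nhds (by
          show (2 : ℝ) < (3 : ℂ).re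
          norm_num)
      filter_upwards [h5] with s hs using hcomp s hs
    intro s hs
    exact h1.eqOn_of_preconnected_of_eventuallyEq h2 hU h3 h4 hs
  -- the continuation
  set L : ℂ → ℂ := fun s => G s * Q s / P s with hL
  have hmer : Meromorphic L := fun s =>
    (((g1.analyticAt s).mul (hQdiff.analyticAt s)).meromorphicAt).div
      ((hPdiff.analyticAt s).meromorphicAt)
  have hLan : ∀ s : ℂ, P s ≠ 0 → AnalyticAt ℂ L s := fun s hs =>
    ((g1.analyticAt s).mul (hQdiff.analyticAt s)).div (hPdiff.analyticAt s) hs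
  have h1re : (1 / 2 : ℝ) < (1 : ℂ).re := by norm_num
  refine ⟨{s | AnalyticAt ℂ L s}, L, isOpen_analyticAt ℂ L, ?_, ?_, hLan 1 (hPne 1 h1re),
    fun s hs => hs, ?_, ?_⟩
  · have h5 : IsConnected ({s : ℂ | AnalyticAt ℂ L s}ᶜ)ᶜ :=
      Set.Countable.isConnected_compl_of_one_lt_rank (by simp) hmer.countable_compl_analyticAt
    rwa [compl_compl] at h5
  · intro s hs
    exact hLan s (hPne s (by
      have : (3 / 2 : ℝ) < s.re := hs
      linarith))
  · intro s hs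
    show G s * Q s / P s = _
    rw [div_eq_iff (hPne s (by linarith)), hcomp' s hs]
  · show G 1 * Q 1 / P 1 ≠ 0
    exact div_ne_zero (mul_ne_zero hG1 (hQne 1 h1re)) (hPne 1 h1re)

end main

end Pool.Agent.L7h81.UB
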