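import Pool.Agent.L7h81.UB.Gk

/-!
# Subgroups of the groups of families, tuples and counting

The general lemmas are copied from `R901/EC/{Tower,Fields}` (index types changed).
-/

set_option autoImplicit false
set_option linter.unusedSectionVars false

namespace Pool.Agent.L7h81.UB

open NumberField IsDedekindDomain Polynomial
open Pool.Agent.K4H55.BI (gen gen_span gen_dvd)

section gen

variable {G : Type} [CommGroup G]

open Classical in
/-- representatives modulo the kernel of a character -/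
lemma reps1 (H : Subgroup G) (χ : G → ℂ) {e : ℕ} (he : 0 < e)
    (hmul : ∀ c ∈ H, ∀ c' ∈ H, χ (c * c') = χ c * χ c') (hpow : ∀ c ∈ H, χ c ^ e = 1) :
    χ 1 = 1 ∧ ∃ R : Finset G, R.card ≤ e ∧ (∀ r ∈ R, r ∈ H) ∧ ∀ c ∈ H, ∃ r ∈ R, χ (c * r) = 1 := by
  have hone : χ 1 = 1 := by
    have h2 := hmul 1 H.one_mem 1 H.one_mem
    rw [mul_one] at h2
    have h3 : χ 1 ≠ 0 := by
      intro h
      have h4 := hpow 1 H.one_mem
      rw [h, zero_pow he.ne'] at h4
      exact zero_ne_one h4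
    exact (mul_right_cancel₀ h3 (by rw [one_mul]; exact h2.symm : χ 1 * χ 1 = 1 * χ 1))
  refine ⟨hone, ?_⟩
  have h1 : ∀ z : ℂ, ∃ r : G, r ∈ H ∧ ((∃ c ∈ H, χ c = z) → z * χ r = 1) := by
    intro z
    by_cases hz : ∃ c ∈ H, χ c = z
    · obtain ⟨c, hc, rfl⟩ := hz
      refine ⟨c⁻¹, H.inv_mem hc, fun _ => ?_⟩
      rw [← hmul c hc _ (H.inv_mem hc), mul_inv_cancel]
      exact hone
    · exact ⟨1, H.one_mem, fun h => absurd h hz⟩
  choose r hr1 hr2 using h1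
  refine ⟨(nthRootsFinset e (1 : ℂ)).image r, ?_, ?_, ?_⟩
  · refine Finset.card_image_le.trans ?_
    unfold nthRootsFinset
    refine (Multiset.toFinset_card_le _).trans ?_
    exact card_nthRoots e 1
  · intro x hx
    obtain ⟨z, -, rfl⟩ := Finset.mem_image.1 hx
    exact hr1 z
  · intro c hc
    refine ⟨r (χ c), Finset.mem_image.2 ⟨χ c, ?_, rfl⟩, ?_⟩
    · rw [mem_nthRootsFinset he]
      exact hpow c hc
    · rw [hmul c hc _ (hr1 _)]
      exact hr2 _ ⟨c, hc, rfl⟩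

open Classical in
/-- representatives modulo the common kernel of several characters -/
lemma reps {α : Type} (Z : Finset α) (χ : α → G → ℂ) {e : ℕ} (he : 0 < e) :
    ∀ H : Subgroup G, (∀ p ∈ Z, ∀ c ∈ H, ∀ c' ∈ H, χ p (c * c') = χ p c * χ p c') →
    (∀ p ∈ Z, ∀ c ∈ H, χ p c ^ e = 1) →
    ∃ H' : Subgroup G, (∀ c, c ∈ H' ↔ c ∈ H ∧ ∀ p ∈ Z, χ p c = 1) ∧
    ∃ R : Finset G, R.card ≤ e ^ Z.card ∧ (∀ r ∈ R, r ∈ H) ∧
      ∀ c ∈ H, ∃ r ∈ R, c * r ∈ H' := by
  induction Z using Finset.induction_on with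
  | empty =>
    intro H _ _
    exact ⟨H, fun c => by simp, {1}, by simp, by simp [H.one_mem], fun c hc => ⟨1, by simp,
      by rw [mul_one]; exact hc⟩⟩
  | insert p Z hp ih =>
    intro H hmul hpow
    have hpI : p ∈ insert p Z := Finset.mem_insert_self p Z
    obtain ⟨hone, R1, h1, h2, h3⟩ := reps1 H (χ p) he (hmul p hpI) (hpow p hpI)
    let H' : Subgroup G :=
      { carrier := {c | c ∈ H ∧ χ p c = 1}
        one_mem' := ⟨H.one_mem, hone⟩
        mul_mem' := by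
          rintro c c' ⟨h1, h2⟩ ⟨h3, h4⟩
          exact ⟨H.mul_mem h1 h3, by rw [hmul p hpI c h1 c' h3, h2, h4, one_mul]⟩
        inv_mem' := by
          rintro c ⟨h1, h2⟩
          refine ⟨H.inv_mem h1, ?_⟩
          have h3 := hmul p hpI c h1 c⁻¹ (H.inv_mem h1)
          rw [mul_inv_cancel, hone, h2, one_mul] at h3
          exact h3.symm }
    obtain ⟨H2, hH2, R2, h4, h5, h6⟩ := ih H'
      (fun q hq c hc c' hc' => hmul q (Finset.mem_insert_of_mem hq) c hc.1 c' hc'.1)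
      (fun q hq c hc => hpow q (Finset.mem_insert_of_mem hq) c hc.1)
    refine ⟨H2, fun c => ?_, (R1 ×ˢ R2).image (fun x => x.1 * x.2), ?_, ?_, ?_⟩
    · rw [hH2 c]
      constructor
      · rintro ⟨⟨h7, h8⟩, h9⟩
        refine ⟨h7, fun q hq => ?_⟩
        rcases Finset.mem_insert.1 hq with rfl | hq
        · exact h8
        · exact h9 q hq
      · rintro ⟨h7, h8⟩
        exact ⟨⟨h7, h8 p hpI⟩, fun q hq => h8 q (Finset.mem_insert_of_mem hq)⟩
    · refine Finset.card_image_le.trans ?_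
      rw [Finset.card_product, Finset.card_insert_of_notMem hp, pow_succ, mul_comm (e ^ Z.card)]
      exact Nat.mul_le_mul h1 h4
    · intro x hx
      obtain ⟨y, hy, rfl⟩ := Finset.mem_image.1 hx
      obtain ⟨hy1, hy2⟩ := Finset.mem_product.1 hy
      exact H.mul_mem (h2 _ hy1) (h5 _ hy2).1
    · intro c hc
      obtain ⟨r, hr, h7⟩ := h3 c hc
      have hcr : c * r ∈ H' := ⟨H.mul_mem hc (h2 r hr), h7⟩
      obtain ⟨r', hr', h8⟩ := h6 _ hcr
      refine ⟨r * r', Finset.mem_image.2 ⟨(r, r'), Finset.mem_product.2 ⟨hr, hr'⟩, rfl⟩, ?_⟩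
      rw [← mul_assoc]
      exact h8

variable {r : ℕ}

open Classical in
/-- corrections of tuples: from a subgroup with finitely many cosets to the group -/
lemma corr_tuple {H H1 : Subgroup G} (h1 : H1 ≤ H) (R : Finset G) (hR : ∀ x ∈ R, x ∈ H)
    (hR2 : ∀ c ∈ H, ∃ x ∈ R, c * x ∈ H1) (K1 : Finset (Fin r → G))
    (hK1 : ∀ k ∈ K1, ∀ j, k j ∈ H1) (Q : (Fin r → G) → Prop)
    (hQ : ∀ c : Fin r → G, (∀ j, c j ∈ H1) → ∃ k ∈ K1, Q (fun j => c j * k j)) :
    ∃ K : Finset (Fin r → G), K.card ≤ R.card ^ r * K1.card ∧ (∀ k ∈ K, ∀ j, k j ∈ H) ∧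
      ∀ c : Fin r → G, (∀ j, c j ∈ H) → ∃ k ∈ K, (∀ j, c j * k j ∈ H1) ∧
        Q (fun j => c j * k j) := by
  refine ⟨((Fintype.piFinset fun _ : Fin r => R) ×ˢ K1).image (fun x => fun j => x.1 j * x.2 j),
    ?_, ?_, ?_⟩
  · refine Finset.card_image_le.trans ?_
    rw [Finset.card_product, Fintype.card_piFinset_const]
  · intro k hk j
    obtain ⟨x, hx, rfl⟩ := Finset.mem_image.1 hk
    obtain ⟨hx1, hx2⟩ := Finset.mem_product.1 hx
    exact H.mul_mem (hR _ (Fintype.mem_piFinset.1 hx1 j)) (h1 (hK1 _ hx2 j))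
  · intro c hc
    choose ρ hρ1 hρ2 using fun j => hR2 (c j) (hc j)
    obtain ⟨k, hk, h2⟩ := hQ (fun j => c j * ρ j) hρ2
    refine ⟨fun j => ρ j * k j, Finset.mem_image.2 ⟨(ρ, k), Finset.mem_product.2
      ⟨Fintype.mem_piFinset.2 hρ1, hk⟩, rfl⟩, fun j => ?_, ?_⟩
    · rw [← mul_assoc]
      exact H1.mul_mem (hρ2 j) (hK1 k hk j)
    · have e : (fun j => c j * (ρ j * k j)) = fun j => c j * ρ j * k j := by
        funext j
        rw [mul_assoc]
      rw [e]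
      exact h2

lemma prod_pow_mem (H : Subgroup G) (y : Fin r → G) (hy : ∀ j, y j ∈ H) (J : Fin r → ℕ) :
    ∏ j, y j ^ J j ∈ H :=
  H.prod_mem fun j _ => H.pow_mem (hy j) _

/-- counting with corrections -/
lemma count_tuple {A B : Set (Fin r → G)} (K : Finset (Fin r → G)) {P : (Fin r → G) → Prop}
    (h : ∀ c ∈ A, ∃ k ∈ K, P (fun j => c j * k j)) (hB : B.Finite)
    (hAB : ∀ c ∈ A, ∀ k ∈ K, P (fun j => c j * k j) → (fun j => c j * k j) ∈ B) :
    A.ncard ≤ K.card * B.ncard := by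
  classical
  choose! κ h1 h2 using h
  have h3 : A.ncard ≤ ((K : Set (Fin r → G)) ×ˢ B).ncard := by
    refine Set.ncard_le_ncard_of_injOn (fun c => (κ c, fun j => c j * κ c j)) ?_ ?_
      ((Finset.finite_toSet K).prod hB)
    · intro c hc
      exact ⟨h1 c hc, hAB c hc _ (h1 c hc) (h2 c hc)⟩
    · intro c hc c' hc' he
      simp only [Prod.mk.injEq] at he
      obtain ⟨e1, e2⟩ := he
      funext j
      have e3 : c j * κ c j = c' j * κ c' j := congrFun e2 j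
      rw [e1] at e3
      exact mul_right_cancel e3
  rw [Set.ncard_prod, Set.ncard_coe_finset] at h3
  exact h3

end gen

section fam

variable {K : Type} [Field K] [NumberField K]

lemma fin_mul {e e' : FamK K} (he : {v | e v ≠ 1}.Finite) (he' : {v | e' v ≠ 1}.Finite) :
    {v | (e * e') v ≠ 1}.Finite := by
  refine (he.union he').subset fun v hv => ?_
  by_contra h
  simp only [Set.mem_union, Set.mem_setOf_eq, not_or, not_not] at h
  apply hv
  show e v * e' v = 1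
  rw [h.1, h.2]
  exact one_mul (1 : (𝓞 K ⧸ v.asIdeal)ˣ →* ℂˣ)

open Classical in
lemma sp_mul {e e' : FamK K} (he : {v | e v ≠ 1}.Finite) (he' : {v | e' v ≠ 1}.Finite) :
    sp (e * e') ⊆ sp e ∪ sp e' := by
  intro v hv
  rw [mem_sp (fin_mul he he')] at hv
  rw [Finset.mem_union, mem_sp he, mem_sp he']
  by_contra h
  rw [not_or, not_not, not_not] at h
  apply hv
  show e v * e' v = 1
  rw [h.1, h.2]
  exact one_mul (1 : (𝓞 K ⧸ v.asIdeal)ˣ →* ℂˣ)

/-- the value of the character -/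
noncomputable def va (e : FamK K) (x : 𝓞 K) : ℂ := vl e (sp e) x

lemma va_eq {e : FamK K} (he : {v | e v ≠ 1}.Finite) {S : Finset (HeightOneSpectrum (𝓞 K))}
    (hS : sp e ⊆ S) {x : 𝓞 K} (hx : ∀ v ∈ S, x ∉ v.asIdeal) : va e x = vl e S x := by
  unfold va
  refine (vl_sub hS (fun v _ hv => ?_) hx).symm
  by_contra h
  exact hv ((mem_sp he v).2 h)

lemma va_mul {e e' : FamK K} (he : {v | e v ≠ 1}.Finite) (he' : {v | e' v ≠ 1}.Finite) {x : 𝓞 K}
    (hx : ∀ v, e v ≠ 1 ∨ e' v ≠ 1 → x ∉ v.asIdeal) : va (e * e') x = va e x * va e' x := by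
  classical
  have hxS : ∀ v ∈ sp e ∪ sp e', x ∉ v.asIdeal := by
    intro v hv
    rw [Finset.mem_union, mem_sp he, mem_sp he'] at hv
    exact hx v hv
  rw [va_eq (fin_mul he he') (sp_mul he he') hxS, va_eq he Finset.subset_union_left hxS,
    va_eq he' Finset.subset_union_right hxS, vl_hom _ _ hxS]

lemma va_pow {e : FamK K} (hfin : {v | e v ≠ 1}.Finite) {N : ℕ} (he : e ^ N = 1) {x : 𝓞 K}
    (hx : ∀ v, e v ≠ 1 → x ∉ v.asIdeal) : va e x ^ N = 1 :=
  vl_pow he fun v hv => hx v ((mem_sp hfin v).1 hv)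

variable [hP : IsPrincipalIdealRing (𝓞 K)]

/-- the subgroup of the characters with value `1` at the places in `Z`, and representatives -/
theorem split_group (H : Subgroup (FamK K)) {N : ℕ} (hN : 0 < N) (hpow : ∀ e ∈ H, e ^ N = 1)
    (hfin : ∀ e ∈ H, {v | e v ≠ 1}.Finite) (Z : Finset (HeightOneSpectrum (𝓞 K)))
    (hZ : ∀ v ∈ Z, ∀ e ∈ H, e v = 1) :
    ∃ H' : Subgroup (FamK K), (∀ e, e ∈ H' ↔ e ∈ H ∧ ∀ v ∈ Z, va e (gen v) = 1) ∧
      ∃ R : Finset (FamK K), R.card ≤ N ^ Z.card ∧ (∀ x ∈ R, x ∈ H) ∧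
        ∀ e ∈ H, ∃ x ∈ R, e * x ∈ H' := by
  have key : ∀ v ∈ Z, ∀ e ∈ H, ∀ v', e v' ≠ 1 → gen v ∉ v'.asIdeal := by
    intro v hv e he v' hv' h1
    have h2 : v' = v := gen_eq h1
    exact hv' (h2 ▸ hZ v hv e he)
  refine reps (G := FamK K) Z (fun v e => va e (gen v)) hN H ?_ ?_
  · intro v hv e he e' he'
    refine va_mul (hfin e he) (hfin e' he') fun v' hv' => ?_
    rcases hv' with h | h
    · exact key v hv e he v' h
    · exact key v hv e' he' v' h
  · exact fun v hv e he => va_pow (hfin e he) (hpow e he) (key v hv e he)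

end fam

section count

variable {K : Type} [Field K] [NumberField K]

/-- the norm of the conductor -/
noncomputable def NC (e : FamK K) : ℕ := ∏ v ∈ sp e, Ideal.absNorm v.asIdeal

lemma nv_pos (v : HeightOneSpectrum (𝓞 K)) : 0 < Ideal.absNorm v.asIdeal := by
  rw [Nat.pos_iff_ne_zero, Ne, Ideal.absNorm_eq_zero_iff]
  exact v.ne_bot

lemma NC_pos (e : FamK K) : 0 < NC e := Finset.prod_pos fun v _ => nv_pos v

lemma NC_mul {e e' : FamK K} (he : {v | e v ≠ 1}.Finite) (he' : {v | e' v ≠ 1}.Finite) :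
    NC (e * e') ≤ NC e * NC e' := by
  classical
  have h4 : NC (e * e') ≤ ∏ v ∈ sp e ∪ sp e', Ideal.absNorm v.asIdeal :=
    Nat.le_of_dvd (Finset.prod_pos fun v _ => nv_pos v)
      (Finset.prod_dvd_prod_of_subset _ _ _ (sp_mul he he'))
  have h5 : (∏ v ∈ sp e ∪ sp e', Ideal.absNorm v.asIdeal) *
      (∏ v ∈ sp e ∩ sp e', Ideal.absNorm v.asIdeal) = NC e * NC e' := Finset.prod_union_inter
  have h6 : 0 < ∏ v ∈ sp e ∩ sp e', Ideal.absNorm v.asIdeal := Finset.prod_pos fun v _ => nv_pos v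
  calc NC (e * e') ≤ ∏ v ∈ sp e ∪ sp e', Ideal.absNorm v.asIdeal := h4
    _ ≤ _ := Nat.le_mul_of_pos_right _ h6
    _ = _ := h5

/-- the families supported in a finite set of places -/
lemma finite_fam (S : Finset (HeightOneSpectrum (𝓞 K))) :
    {e : FamK K | ∀ v, e v ≠ 1 → v ∈ S}.Finite := by
  classical
  have h1 : ∀ v : S, Finite ((𝓞 K ⧸ (v : HeightOneSpectrum (𝓞 K)).asIdeal)ˣ →* ℂˣ) := by
    intro v
    haveI : Finite (𝓞 K ⧸ (v : HeightOneSpectrum (𝓞 K)).asIdeal) :=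
      Ideal.finiteQuotientOfFreeOfNeBot _ (v : HeightOneSpectrum (𝓞 K)).ne_bot
    exact Finite.of_equiv (MulChar (𝓞 K ⧸ (v : HeightOneSpectrum (𝓞 K)).asIdeal) ℂ)
      MulChar.equivToUnitHom
  have h2 : Finite ((v : S) → ((𝓞 K ⧸ (v : HeightOneSpectrum (𝓞 K)).asIdeal)ˣ →* ℂˣ)) := Pi.finite
  have h3 : Function.Injective (fun e : {e : FamK K | ∀ v, e v ≠ 1 → v ∈ S} =>
      fun v : S => (e : FamK K) (v : HeightOneSpectrum (𝓞 K))) := by
    intro e e' h
    apply Subtype.ext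
    funext v
    by_cases hv : v ∈ S
    · exact congrFun h ⟨v, hv⟩
    · have e1 : (e : FamK K) v = 1 := by
        by_contra hne
        exact hv (e.2 v hne)
      have e2 : (e' : FamK K) v = 1 := by
        by_contra hne
        exact hv (e'.2 v hne)
      rw [e1, e2]
  exact Set.finite_coe_iff.1 (Finite.of_injective _ h3)

lemma finite_places (X : ℕ) : {v : HeightOneSpectrum (𝓞 K) | Ideal.absNorm v.asIdeal ≤ X}.Finite := by
  have h1 := Ideal.finite_setOf_absNorm_le (S := 𝓞 K) X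
  refine Set.Finite.of_injOn (f := fun v : HeightOneSpectrum (𝓞 K) => v.asIdeal) ?_ ?_ h1
  · intro v hv
    exact hv
  · intro v _ v' _ h
    exact HeightOneSpectrum.ext h

/-- finitely many tuples of bounded conductor -/
lemma finite_cond {r : ℕ} {H : Subgroup (FamK K)} (hfin : ∀ e ∈ H, {v | e v ≠ 1}.Finite) (X : ℕ) :
    {c : Fin r → FamK K | (∀ j, c j ∈ H) ∧ ∏ j, NC (c j) ≤ X}.Finite := by
  classical
  have h1 := finite_fam (finite_places (K := K) X).toFinset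
  refine (Set.Finite.pi' (fun _ : Fin r => h1)).subset ?_
  rintro c ⟨hc, hX⟩ j v hv
  rw [Set.Finite.mem_toFinset]
  have h2 : Ideal.absNorm v.asIdeal ∣ NC (c j) :=
    Finset.dvd_prod_of_mem _ ((mem_sp (hfin _ (hc j)) v).2 hv)
  have h3 : Ideal.absNorm v.asIdeal ≤ NC (c j) := Nat.le_of_dvd (NC_pos _) h2
  have h4 : NC (c j) ≤ ∏ j, NC (c j) :=
    Nat.le_of_dvd (Finset.prod_pos fun j _ => NC_pos _)
      (Finset.dvd_prod_of_mem (fun j => NC (c j)) (Finset.mem_univ j))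
  exact h3.trans (h4.trans hX)

/-- **The counting statements.** -/
theorem many_tuples {r : ℕ} {H : Subgroup (FamK K)} (hfin : ∀ e ∈ H, {v | e v ≠ 1}.Finite)
    {V : ℕ} (KK : Finset (Fin r → FamK K))
    (hK : KK.card ≤ 2 ^ V) (hKH : ∀ k ∈ KK, ∀ j, k j ∈ H) {P : (Fin r → FamK K) → Prop}
    (h : ∀ c : Fin r → FamK K, (∀ j, c j ∈ H) → ∃ k ∈ KK, P (fun j => c j * k j)) :
    ((H : Set (FamK K)).Finite → {c : Fin r → FamK K | ∀ j, c j ∈ H}.ncard ≤
      2 ^ V * {c : Fin r → FamK K | (∀ j, c j ∈ H) ∧ P c}.ncard) ∧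
    ∃ C : ℕ, ∀ X : ℕ, {c : Fin r → FamK K | (∀ j, c j ∈ H) ∧ ∏ j, NC (c j) ≤ X}.ncard ≤
      2 ^ V * {c : Fin r → FamK K | ((∀ j, c j ∈ H) ∧ P c) ∧ ∏ j, NC (c j) ≤ C * X}.ncard := by
  classical
  refine ⟨fun hH => ?_, ∏ k ∈ KK, ∏ j, NC (k j), fun X => ?_⟩
  · refine (count_tuple (G := FamK K) (B := {c : Fin r → FamK K | (∀ j, c j ∈ H) ∧ P c}) KK
      (fun c hc => h c hc) ((Set.Finite.pi' (fun _ : Fin r => hH)).subset fun c hc => hc.1) ?_).trans
      (Nat.mul_le_mul_right _ hK)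
    intro c hc k hk h1
    exact ⟨fun j => H.mul_mem (hc j) (hKH k hk j), h1⟩
  · refine (count_tuple (G := FamK K) (B := {c : Fin r → FamK K | ((∀ j, c j ∈ H) ∧ P c) ∧
      ∏ j, NC (c j) ≤ (∏ k ∈ KK, ∏ j, NC (k j)) * X}) KK
      (fun c hc => h c hc.1) ((finite_cond hfin _).subset fun c hc => ⟨hc.1.1, hc.2⟩) ?_).trans
      (Nat.mul_le_mul_right _ hK)
    rintro c ⟨hc, hX⟩ k hk h1
    refine ⟨⟨fun j => H.mul_mem (hc j) (hKH k hk j), h1⟩, ?_⟩
    have h2 : ∏ j, NC (c j * k j) ≤ (∏ j, NC (c j)) * ∏ j, NC (k j) := by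
      rw [← Finset.prod_mul_distrib]
      exact Finset.prod_le_prod' fun j _ => NC_mul (hfin _ (hc j)) (hfin _ (hKH k hk j))
    have h3 : ∏ j, NC (k j) ≤ ∏ k ∈ KK, ∏ j, NC (k j) :=
      Nat.le_of_dvd (Finset.prod_pos fun k _ => Finset.prod_pos fun j _ => NC_pos _)
        (Finset.dvd_prod_of_mem (fun k : Fin r → FamK K => ∏ j, NC (k j)) hk)
    calc ∏ j, NC (c j * k j) ≤ (∏ j, NC (c j)) * ∏ j, NC (k j) := h2
      _ ≤ X * ∏ k ∈ KK, ∏ j, NC (k j) := Nat.mul_le_mul hX h3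
      _ = _ := mul_comm _ _

end count

end Pool.Agent.L7h81.UB
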