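import Pool.Agent.L7h81.UB.Grp

/-!
# Infinite groups of families: port of `Y18/LP/Abs` (`ext_one`, `infinite`)
-/

set_option autoImplicit false
set_option linter.unusedSectionVars false

namespace Pool.Agent.L7h81.UB

open NumberField IsDedekindDomain
open Pool.Agent.K4H55.BI (gen fv fv_periodic MG VV VV_fg)
open Pool.Agent.Y18.LP (Comb Good krull fg_prod span_fg correction pow_mod' zpow_mod')

variable {K : Type} [Field K] [NumberField K] [hP : IsPrincipalIdealRing (𝓞 K)]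
  {D : Pool.Agent.K4H55.BI.Ord (𝓞 K)}
  {ι : Type} [Fintype ι] {nn : ι → 𝓞 K} {cc : ι → 𝓞 K → ℂ} {CC : ι → ℝ} {ww : ι → ℂ}
  {MM : ι → Submodule ℤ ℂ}

/-- **one more generator** -/
theorem ext_one (hms : ∀ i, MG D (nn i) (cc i) (CC i) (ww i) (MM i)) (h0 : ∀ i, fv D (cc i) 0 ≠ 0)
    {l : ℕ} (hl : l.Prime) (k : ℕ) (lam : Ideal (integralClosure ℤ ℂ)) (hlam : lam.IsPrime)
    (hmem : (l : integralClosure ℤ ℂ) ∈ lam) (H : Subgroup (FamK K))
    (hH : Ok H (l ^ k) (AdK nn cc lam)) (F : Subgroup (FamK K)) (hF : (F : Set (FamK K)).Finite)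
    (hFH : F ≤ H) (hFn : ∀ c ∈ F, ∀ i, btK D (fv D (cc i)) c ≠ 0) :
    ∃ KK : Finset (FamK K), (∀ k ∈ KK, k ∈ H) ∧ ∀ c ∈ H, ∃ k ∈ KK, ∀ h ∈ F, ∀ j : ℕ, ∀ i,
      btK D (fv D (cc i)) (h * (c * k) ^ j) ≠ 0 := by
  classical
  have he : 0 < l ^ k := pow_pos hl.pos k
  obtain ⟨R, hR0, P, al, hPm, hR, hP1, hA⟩ := setupK hms h0 hl k lam hlam hmem
  set s : Finset (ι × FamK K × ℕ) := Finset.univ ×ˢ (hF.toFinset ×ˢ Finset.range (l ^ k)) with hs
  have hmems : ∀ x : ι × FamK K × ℕ, x ∈ s ↔ x.2.1 ∈ F ∧ x.2.2 < l ^ k := by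
    intro x
    rw [hs, Finset.mem_product, Finset.mem_product, Set.Finite.mem_toFinset, Finset.mem_range]
    simp
  have hg := Good.prod (Γ := H) (e := l ^ k) hPm.isPrime s
    (fun x => Submodule.span R (VV D (nn x.1) (cc x.1)))
    (fun x (c : H) => btK D (fv D (cc x.1)) (x.2.1 * (c : FamK K) ^ x.2.2))
    (fun x hx => by
      have h1 := (goodK (hms x.1) hR (al x.1) hPm.isPrime hP1 hH (hA x.1)).comp hR
        ⟨x.2.1, hFH ((hmems x).1 hx).1⟩ x.2.2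
      exact h1)
  have hval : ∏ x ∈ s, btK D (fv D (cc x.1)) (x.2.1 * ((1 : H) : FamK K) ^ x.2.2) ≠ 0 := by
    refine Finset.prod_ne_zero_iff.2 fun x hx => ?_
    have e1 : ((1 : H) : FamK K) ^ x.2.2 = 1 := one_pow x.2.2
    have e3 : x.2.1 * ((1 : H) : FamK K) ^ x.2.2 = x.2.1 := by
      rw [e1]
      exact mul_one x.2.1
    rw [e3]
    exact hFn _ ((hmems x).1 hx).1 _
  obtain ⟨V, hV⟩ := krull hPm.ne_top (fg_prod s _ fun i _ => span_fg (VV_fg (hms i.1))) (hg.mem 1) hval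
  obtain ⟨KK, hK1, hK2⟩ := correction hR hPm hP1 hg (V := V) hV
  refine ⟨(KK.map (fun c : H => (c : FamK K))).toFinset, ?_, ?_⟩
  · intro k hk
    rw [List.mem_toFinset, List.mem_map] at hk
    obtain ⟨c, _, rfl⟩ := hk
    exact c.2
  · intro c hc
    obtain ⟨y, hk, h1⟩ := hK2 ⟨c, hc⟩
    refine ⟨y, ?_, fun h hh j i => ?_⟩
    · rw [List.mem_toFinset, List.mem_map]
      exact ⟨y, hk, rfl⟩
    · have hpow : (c * (y : FamK K)) ^ j = (c * (y : FamK K)) ^ (j % l ^ k) := by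
        have h2 : (c * (y : FamK K)) ^ (l ^ k) = 1 := hH.pow _ (H.mul_mem hc y.2)
        exact pow_mod' (G := FamK K) (x := c * (y : FamK K)) h2 j
      rw [hpow]
      exact Finset.prod_ne_zero_iff.1 h1 (i, h, j % l ^ k)
        ((hmems _).2 ⟨hh, Nat.mod_lt _ he⟩)

/-- **infinite subgroups** -/
theorem infiniteK (hms : ∀ i, MG D (nn i) (cc i) (CC i) (ww i) (MM i)) (h0 : ∀ i, fv D (cc i) 0 ≠ 0)
    {l : ℕ} (hl : l.Prime) (k : ℕ) (lam : Ideal (integralClosure ℤ ℂ)) (hlam : lam.IsPrime)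
    (hmem : (l : integralClosure ℤ ℂ) ∈ lam) (H : Subgroup (FamK K))
    (hH : Ok H (l ^ k) (AdK nn cc lam)) (hinf : (H : Set (FamK K)).Infinite) :
    ∃ H0 : Subgroup (FamK K), H0 ≤ H ∧ (H0 : Set (FamK K)).Infinite ∧
      ∀ c ∈ H0, ∀ i, btK D (fv D (cc i)) c ≠ 0 := by
  classical
  let Z : Set (Subgroup (FamK K)) := {G | G ≤ H ∧ ∀ c ∈ G, ∀ i, btK D (fv D (cc i)) c ≠ 0}
  have hbot : (⊥ : Subgroup (FamK K)) ∈ Z := by
    refine ⟨bot_le, fun c hc i => ?_⟩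
    rw [Subgroup.mem_bot] at hc
    have e1 : btK D (fv D (cc i)) (1 : FamK K) ≠ 0 := by
      rw [btK_one]
      exact h0 i
    rw [hc]
    exact e1
  obtain ⟨G, hFG, hG⟩ := zorn_le_nonempty₀ Z (by
    intro C hC hchain G0 hG0
    refine ⟨sSup C, ⟨sSup_le fun G hG => (hC hG).1, fun c hc i => ?_⟩, fun G hG => le_sSup hG⟩
    have hdir : DirectedOn (· ≤ ·) C := hchain.directedOn
    rw [Subgroup.mem_sSup_of_directedOn ⟨G0, hG0⟩ hdir] at hc
    obtain ⟨G, hG, hcG⟩ := hc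
    exact (hC hG).2 c hcG i) ⊥ hbot
  refine ⟨G, hG.prop.1, ?_, hG.prop.2⟩
  intro hfin
  obtain ⟨KK, hK1, hK2⟩ := ext_one hms h0 hl k lam hlam hmem H hH G hfin hG.prop.1 hG.prop.2
  have hbad : (⋃ y ∈ KK, (fun g : FamK K => g * y⁻¹) '' (G : Set (FamK K))).Finite :=
    Set.Finite.biUnion (Finset.finite_toSet KK) fun y _ => hfin.image _
  obtain ⟨c, hcH, hc⟩ := hinf.exists_notMem_finite hbad
  obtain ⟨y, hk, h1⟩ := hK2 c hcH
  have hckG : c * y ∉ G := by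
    intro h2
    apply hc
    simp only [Set.mem_iUnion]
    exact ⟨y, hk, c * y, h2, mul_inv_cancel_right c y⟩
  have hckH : c * y ∈ H := H.mul_mem hcH (hK1 y hk)
  have hle : G ⊔ Subgroup.zpowers (c * y) ∈ Z := by
    refine ⟨sup_le hG.prop.1 (by rwa [Subgroup.zpowers_le]), ?_⟩
    intro x hx i
    obtain ⟨g, hg, z, hz, rfl⟩ := (Subgroup.mem_sup (C := FamK K)).1 hx
    obtain ⟨j, rfl⟩ := Subgroup.mem_zpowers_iff.1 hz
    have he : 0 < l ^ k := pow_pos hl.pos k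
    have h2 : (c * y) ^ (l ^ k) = 1 := hH.pow _ hckH
    obtain ⟨m, hm⟩ : ∃ m : ℕ, (c * y) ^ j = (c * y) ^ m := zpow_mod' (G := FamK K) (x := c * y) he h2 j
    have h3 : g * (c * y) ^ j = g * (c * y) ^ m := congrArg (fun y => g * y) hm
    intro h5
    refine h1 g hg m i ?_
    have h6 : btK D (fv D (cc i)) (g * (c * y) ^ j) = btK D (fv D (cc i)) (g * (c * y) ^ m) :=
      congrArg (btK D (fv D (cc i))) h3
    exact h6.symm.trans h5
  have h3 := hG.le_of_ge hle le_sup_left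
  exact hckG (h3 (Subgroup.mem_sup_right (Subgroup.mem_zpowers _)))

/-- an infinite group has an infinite subgroup in a subgroup with finitely many cosets -/
lemma infinite_of_reps {G : Type} [CommGroup G] {H H' : Subgroup G} (hinf : (H : Set G).Infinite)
    (R : Finset G) (h : ∀ c ∈ H, ∃ r ∈ R, c * r ∈ H') : (H' : Set G).Infinite := by
  intro hfin
  apply hinf
  refine ((R.finite_toSet.prod hfin).image (fun x : G × G => x.2 * x.1⁻¹)).subset ?_
  intro c hc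
  obtain ⟨r, hr, h1⟩ := h c hc
  exact ⟨(r, c * r), ⟨hr, h1⟩, by simp⟩

end Pool.Agent.L7h81.UB
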