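import Pool.Agent.L7h81.UB.End

/-!
# The value of the primitive at the cusp `0` and the analytic rank
-/

set_option autoImplicit false
set_option linter.unusedSectionVars false

namespace Pool.Agent.L7h81.UB

open NumberField IsDedekindDomain Filter Topology
open Pool.Agent.W189.NF (aV eV)
open Pool.Agent.H921R2.TatePole (nm)
open Pool.Agent.K4H55.BI (IQ BF gen fv ordK)
open Pool.Agent.L7h15.BK (cv efx_eq tpol_eq HB hb_place nm_two LSeries_hasProdB)

variable {K : Type} [Field K] [NumberField K] [hP : IsPrincipalIdealRing (𝓞 K)] {σ : K →+* ℂ}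
  {δ : K} {n : 𝓞 K} {c : Ideal (𝓞 K) → ℂ}

open Classical in
/-- analytic rank `0` -/
theorem fv_ne (h : IQ K σ δ) (hf : BF σ δ n c) {a b : 𝓞 K}
    (hloc : ∀ v : HeightOneSpectrum (𝓞 K), c v.asIdeal = (aV (cv (a : K) (b : K)) v : ℂ) ∧
      (eV (cv (a : K) (b : K)) v : ℂ) = if n ∈ v.asIdeal then 0 else (Ideal.absNorm v.asIdeal : ℂ))
    {U : Set ℂ} {Φ : ℂ → ℂ} (hUc : IsConnected U)
    (hUs : {s : ℂ | (3 / 2 : ℝ) < s.re} ⊆ U) (h1U : (1 : ℂ) ∈ U) (hΦ : AnalyticOnNhd ℂ Φ U)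
    (hΦs : ∀ s : ℂ, (3 / 2 : ℝ) < s.re → Φ s = (cv (a : K) (b : K)).LSeries s) (hΦ1 : Φ 1 ≠ 0) :
    fv (ordK h) (fun x => c (Ideal.span {x})) 0 ≠ 0 := by
  classical
  have he : (1 : FamK K) ^ 3 ^ 0 = 1 := one_pow (M := FamK K) _
  have hfin : {v | (1 : FamK K) v ≠ 1}.Finite := by
    have : {v | (1 : FamK K) v ≠ 1} = ∅ := by
      ext v
      simp
    rw [this]
    exact Set.finite_empty
  obtain ⟨G, g1, g2, g3⟩ := val_iff h hf Nat.prime_three (k := 0) he hfin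
    (fun u _ => by rw [sp_one]; unfold vl; simp)
    (by rw [sp_one]; intro v hv; exact absurd hv (Finset.notMem_empty v))
  have e0 : (1 : FamK K)⁻¹ = 1 := _root_.inv_one (G := FamK K)
  rw [e0, btK_one] at g3
  apply g3.1
  have hHK : ∀ v : HeightOneSpectrum (𝓞 K), HB (aV (cv (a : K) (b : K)) v)
      (eV (cv (a : K) (b : K)) v) (nm v) := by
    intro v
    refine hb_place _ v ?_
    by_cases h2 : (2 : 𝓞 K) ∈ v.asIdeal
    · exact Or.inr (nm_two h.deg h2)
    · exact Or.inl h2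
  have key : ∀ s : ℂ, 2 < s.re → G s = Φ s := by
    intro s hs
    have h1 := (LSeries_hasProdB (cv (a : K) (b : K)) hHK (s := s) (by linarith)).2
    rw [hΦs s (by linarith)]
    refine (g2 s hs).unique ?_
    refine h1.congr_fun fun v => ?_
    have hz : vl (1 : FamK K) (sp (1 : FamK K)) (gen v) = 1 := by
      rw [sp_one]; unfold vl; simp
    rw [efx_eq, tpol_eq _ v s (hloc v).1 (hloc v).2, hz, one_mul]
    rfl
  have h3U : (3 : ℂ) ∈ U := hUs (by
    show (3 / 2 : ℝ) < (3 : ℂ).re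
    norm_num)
  have h4 : G =ᶠ[𝓝 (3 : ℂ)] Φ := by
    have h5 : {s : ℂ | (2 : ℝ) < s.re} ∈ 𝓝 (3 : ℂ) :=
      (isOpen_lt continuous_const Complex.continuous_re).mem_nhds (by
        show (2 : ℝ) < (3 : ℂ).re
        norm_num)
    filter_upwards [h5] with s hs using key s hs
  have h5 : Set.EqOn G Φ U := AnalyticOnNhd.eqOn_of_preconnected_of_eventuallyEq
    (fun s _ => g1.analyticAt s) hΦ hUc.isPreconnected h3U h4
  rw [h5 h1U]
  exact hΦ1

end Pool.Agent.L7h81.UB
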